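import Pool.Agent.H77.WE.Com
import Pool.Agent.H19.A2.Ff

/-!
# H77-S3-DEF: the relation and the honesty criterion at `S0` (MP_b39724_nt, stage 3, chapter B1, think 1687), definitions

`k`, `M` independent. `Sml p k M H`: `H` is a `p`-group of order at most `M` and exponent dividing `p ^ k`. `Lw`: `H` satisfies the laws of these groups. `Rsm`: residually
small. `FnC`: the relative functional on closed cochains (the only case which is used; it does not depend on the places over the primes outside `S0`).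
`SD`: the generators `a i` are in the decomposition groups at `S0` (`pl i` the place), together with dual elements `b i`. `blk pl v x y`: the product of the commutators
`[x i, y i]` of the place `v`. `LOC`: the local relation: for every central extension `π : H → H'` with cocycle `e` (`c` the coordinate) the functional at `v` of `e (lam, lam)` is
`- c (blk x y)`, `x i`, `y i` lifts of `lam (a i)`, `lam (b i)`.
`wrd`: the words of the relation. `Rel`: the relation (R) with words `X v`, `B i` for the Frobenius elements and the `b i`.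
-/

set_option autoImplicit false
set_option linter.dupNamespace false

open scoped NumberField commutatorElement
open IsDedekindDomain
open scoped Classical

noncomputable section

namespace H77.S3

open H63.MA H38.BB H38.BG H57.PC H57.BRA H57.GP H77.WD Pool.Agent.H19.NF
  Pool.Agent.H19.AB Pool.Agent.H19.A2 H77.WE

/-- small groups -/
def Sml (p k M : ℕ) (H : Type) [Group H] : Prop :=
  IsPGroup p H ∧ Nat.card H ≤ M ∧ ∀ h : H, h ^ p ^ k = 1

/-- `H` satisfies the laws of the small groups -/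
def Lw (p k M : ℕ) (H : Type) [Group H] : Prop :=
  ∀ (n : ℕ) (w : FreeGroup (Fin n)),
    (∀ (S : Type) [Group S] [Finite S], Sml p k M S → ∀ f : FreeGroup (Fin n) →* S, f w = 1) →
    ∀ f : FreeGroup (Fin n) →* H, f w = 1

/-- residually small -/
def Rsm (p k M : ℕ) (H : Type) [Group H] : Prop :=
  ∀ x : H, x ≠ 1 → ∃ (S : Type) (_ : Group S) (_ : Finite S) (f : H →* S), Sml p k M S ∧ f x ≠ 1

variable {K : Type} [Field K] [NumberField K] {Ω : Type} [Field Ω] [Algebra K Ω]
  {p : ℕ} {ζ : K}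

/-- the relative functional on closed cochains -/
def FnC (p k m : ℕ) [NeZero (p ^ m)] {ζ : K} (D : RD0 K p ζ) (L : LDs D Ω) (Q : DP K Ω)
    (Fr : FR L) (I : ((Gal(Ω/K) → Gal(Ω/K) → Gal(Ω/K) → ZMod (p ^ m)) ×
      (Pl K → Gal(Ω/K) → Gal(Ω/K) → ZMod (p ^ m))) →+ AddCircle (1 : ℝ)) : Prop :=
  ∀ (Ψ : Gal(Ω/K) → Gal(Ω/K) → ZMod (p ^ m)) (η : Pl K → Gal(Ω/K) → ZMod (p ^ m)),
    LfK k L Ψ → (∀ σ τ υ, d2 Ψ σ τ υ = 0) → (∀ v, Lev (η v)) →
      I (0, rs D Q fun v σ τ => Ψ σ τ - d1 (η v) σ τ) = ZMod.toAddCircle (TS1 L Fr Ψ)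

/-- the generators at `S0` and their dual elements -/
structure SD (D : RD0 K p ζ) (Q : DP K Ω) (A : GS D Ω) where
  b : Fin A.g → Gal(Ω/K)
  pl : Fin A.g → Pl K
  mem : ∀ i, pl i ∈ D.S0
  ad : ∀ i, A.a i ∈ dec (K := K) (Q.P (pl i))
  bd : ∀ i, b i ∈ dec (K := K) (Q.P (pl i))

/-- the product of the commutators of the place `v` -/
def blk {g : ℕ} (pl : Fin g → Pl K) (v : Pl K) {H : Type} [Group H] (x y : Fin g → H) : H :=
  (((List.finRange g).filter fun i => pl i = v).map fun i => ⁅x i, y i⁆).prod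

/-- the local relation -/
def LOC (k M : ℕ) {m : ℕ} [NeZero (p ^ m)] (D : RD0 K p ζ) (Q : DP K Ω)
    (I : ((Gal(Ω/K) → Gal(Ω/K) → Gal(Ω/K) → ZMod (p ^ m)) ×
      (Pl K → Gal(Ω/K) → Gal(Ω/K) → ZMod (p ^ m))) →+ AddCircle (1 : ℝ))
    (A : GS D Ω) (B : SD D Q A) : Prop :=
  ∀ v ∈ D.S0, ∀ (H H' : Type) [Group H] [Finite H] [Group H'] [Finite H'] (π : H →* H')
    (e : H' → H' → ZMod (p ^ m)) (c : H → ZMod (p ^ m)), Function.Surjective π →
    (∀ z, π z = 1 → ∀ h, z * h = h * z) → (∀ x, e 1 x = 0) → (∀ x, e x 1 = 0) →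
    (∀ x y, c (x * y) = c x + c y + e (π x) (π y)) → Lw p k M H → Rsm p k M H' →
    ∀ lam : Gal(Ω/K) →* H', H38.ML.FT lam → ∀ x y : Fin A.g → H,
      (∀ i, B.pl i = v → π (x i) = lam (A.a i)) → (∀ i, B.pl i = v → π (y i) = lam (B.b i)) →
      I (0, rs D Q fun v' σ τ => if v' = v then e (lam σ) (lam τ) else 0) =
        -ZMod.toAddCircle (c (blk B.pl v x y))

/-- the word of a place -/
def wrd {D : RD0 K p ζ} {Q : DP K Ω} {A : GS D Ω} (B : SD D Q A) {H : Type} [Group H]
    (t X : Pl K → H) (a b : Fin A.g → H) (v : Pl K) : H :=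
  if v ∈ D.S0 then blk B.pl v a b else ⁅t v, X v⁆

/-- `X v`, `Y i` are words for the Frobenius elements and the `b i` -/
def Wds (k M : ℕ) {D : RD0 K p ζ} (L : LDs D Ω) {Q : DP K Ω} (Fr : FR L) (A : GS D Ω)
    (B : SD D Q A) (Z : Finset (Pl K)) (X : Pl K → FW A) (Y : Fin A.g → FW A) : Prop :=
  ∀ (H : Type) [Group H] [Finite H], Sml p k M H → ∀ φ : Gal(Ω/K) →* H, Unz L Z φ →
    (∀ v ∈ Z, hat L A φ (X v) = φ (Fr.F v)) ∧ ∀ i, hat L A φ (Y i) = φ (B.b i)

/-- the relation (R): words `X v` for the Frobenius elements, `Y i` for the `b i`, a fixed order `l` of the places -/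
def Rel (k M : ℕ) {D : RD0 K p ζ} (L : LDs D Ω) {Q : DP K Ω} (Fr : FR L) (A : GS D Ω)
    (B : SD D Q A) (Z : Finset (Pl K)) (l : List (Pl K)) (X : Pl K → FW A) (Y : Fin A.g → FW A) :
    Prop :=
  (∀ v ∈ Z, X v ∈ OnZ A Z) ∧ (∀ i, Y i ∈ OnZ A Z) ∧ Wds k M L Fr A B Z X Y ∧
  ∀ (H : Type) [Group H] [Finite H], Sml p k M H → ∀ θ : FW A →* H,
    (∀ v, v ∉ Z → θ (FreeGroup.of (Sum.inl v)) = 1) →
    (l.map fun v => wrd B (fun v => θ (FreeGroup.of (Sum.inl v))) (fun v => θ (X v))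
      (fun i => θ (FreeGroup.of (Sum.inr i))) (fun i => θ (Y i)) v).prod = 1

end H77.S3
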