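import Pool.Agent.H77.S3.Def

/-!
# [H77 S3 BLK] the block of a place is trivial on honest homomorphisms

* `sml_sub`, `sml_quot`, `sml_lw`, `sml_rsm`: small groups.
* `map_blk`: the block and homomorphisms.
* `blk_one`: `LOC` and `FnC` imply `blk (φ a) (φ b) = 1` for all `φ : Γ → H` of finite type, `H` small (induction over a central subgroup of order `p`).
-/

set_option autoImplicit false
set_option linter.dupNamespace false

open scoped NumberField commutatorElement
open IsDedekindDomain
open scoped Classical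

noncomputable section

namespace H77.S3

open H63.MA H38.BB H38.BG H57.PC H57.BRA H57.GP H77.WD Pool.Agent.H19.NF
  Pool.Agent.H19.AB Pool.Agent.H19.A2 H77.WE Pool.Agent.H19

theorem sml_inj {p k M : ℕ} {H S : Type} [Group H] [Group S] [Finite S] (h : Sml p k M S)
    (f : H →* S) (hf : Function.Injective f) : Sml p k M H := by
  refine ⟨h.1.of_injective f hf, (Nat.card_le_card_of_injective f hf).trans h.2.1, fun x => ?_⟩
  apply hf
  rw [map_pow, h.2.2, map_one]

theorem sml_surj {p k M : ℕ} {H S : Type} [Group H] [Group S] [Finite H] (h : Sml p k M H)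
    (f : H →* S) (hf : Function.Surjective f) : Sml p k M S := by
  refine ⟨h.1.of_surjective f hf, (Nat.card_le_card_of_surjective f hf).trans h.2.1, fun x => ?_⟩
  obtain ⟨y, rfl⟩ := hf x
  rw [← map_pow, h.2.2, map_one]

theorem sml_lw {p k M : ℕ} {H : Type} [Group H] [Finite H] (h : Sml p k M H) : Lw p k M H :=
  fun _ _ hw f => hw H h f

theorem sml_rsm {p k M : ℕ} {H : Type} [Group H] [Finite H] (h : Sml p k M H) : Rsm p k M H :=
  fun _ hx => ⟨H, inferInstance, inferInstance, MonoidHom.id H, h, hx⟩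

theorem lw_pow {p k M : ℕ} {H : Type} [Group H] (h : Lw p k M H) (x : H) : x ^ p ^ k = 1 := by
  have h1 := h 1 (FreeGroup.of 0 ^ p ^ k) (fun S _ _ hS f => by rw [map_pow, hS.2.2])
    (FreeGroup.lift fun _ => x)
  rwa [map_pow, FreeGroup.lift_apply_of] at h1

theorem map_blk {K : Type} [Field K] [NumberField K] {g : ℕ} (pl : Fin g → Pl K) (v : Pl K)
    {H S : Type} [Group H] [Group S] (f : H →* S) (x y : Fin g → H) :
    f (blk pl v x y) = blk pl v (fun i => f (x i)) fun i => f (y i) := by
  unfold blk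
  rw [map_list_prod, List.map_map]
  congr 1
  apply List.map_congr_left
  intro i _
  exact map_commutatorElement f (x i) (y i)

theorem blk_congr {K : Type} [Field K] [NumberField K] {g : ℕ} (pl : Fin g → Pl K) (v : Pl K)
    {H : Type} [Group H] {x y x' y' : Fin g → H} (hx : ∀ i, pl i = v → x i = x' i)
    (hy : ∀ i, pl i = v → y i = y' i) : blk pl v x y = blk pl v x' y' := by
  unfold blk
  congr 1
  apply List.map_congr_left
  intro i hi
  have h1 : pl i = v := by
    have h2 := (List.mem_filter.1 hi).2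
    simpa using h2
  show ⁅x i, y i⁆ = ⁅x' i, y' i⁆
  rw [hx i h1, hy i h1]

variable {K : Type} [Field K] [NumberField K] {Ω : Type} [Field Ω] [Algebra K Ω] [IsAlgClosure K Ω]
  {p : ℕ} {ζ : K}

omit [IsAlgClosure K Ω] in
theorem ts1_zero {m : ℕ} {D : RD0 K p ζ} (L : LDs D Ω) (Fr : FR L) :
    TS1 L Fr (0 : Gal(Ω/K) → Gal(Ω/K) → ZMod (p ^ m)) = 0 := by
  unfold TS1
  apply finsum_eq_zero_of_forall_eq_zero
  intro v
  show (0 : ZMod (p ^ m)) - 0 = 0
  rw [sub_zero]

omit [IsAlgClosure K Ω] in
theorem blk_one (hp : p.Prime) {k M m : ℕ} [NeZero (p ^ m)] (hm : 1 ≤ m) {D : RD0 K p ζ}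
    {L : LDs D Ω} {Q : DP K Ω} {Fr : FR L}
    {I : ((Gal(Ω/K) → Gal(Ω/K) → Gal(Ω/K) → ZMod (p ^ m)) ×
      (Pl K → Gal(Ω/K) → Gal(Ω/K) → ZMod (p ^ m))) →+ AddCircle (1 : ℝ)}
    (hI : FnC p k m D L Q Fr I) {A : GS D Ω} {B : SD D Q A} (hB : LOC k M D Q I A B)
    {v : Pl K} (hv : v ∈ D.S0) (n : ℕ) : ∀ (H : Type) [Group H] [Finite H], Nat.card H = n →
      Sml p k M H → ∀ φ : Gal(Ω/K) →* H, H38.ML.FT φ →
        blk B.pl v (fun i => φ (A.a i)) (fun i => φ (B.b i)) = 1 := by
  have hp0 : NeZero p := ⟨hp.ne_zero⟩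
  induction n using Nat.strong_induction_on with
  | _ n ih =>
    intro H _ _ hn hH φ hφ
    rcases subsingleton_or_nontrivial H with hs | hnt
    · exact Subsingleton.elim _ _
    obtain ⟨i, hi, hc⟩ := pg_cen hp hH.1 hnt
    have hnorm : i.range.Normal := by
      refine ⟨fun x hx g => ?_⟩
      obtain ⟨z, rfl⟩ := hx
      rw [← hc, mul_inv_cancel_right]
      exact ⟨z, rfl⟩
    have hlt : Nat.card (H ⧸ i.range) < n := by
      have h1 := Subgroup.card_eq_card_quotient_mul_card_subgroup i.range
      have h2 : Nat.card i.range = p := by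
        rw [← Nat.card_congr (MonoidHom.ofInjective hi).toEquiv,
          Nat.card_congr Multiplicative.toAdd, Nat.card_zmod]
      have h3 : 0 < Nat.card (H ⧸ i.range) := Nat.card_pos
      rw [h2, hn] at h1
      rw [h1]
      exact lt_mul_of_one_lt_right h3 hp.one_lt
    set π : H →* H ⧸ i.range := QuotientGroup.mk' i.range with hπ
    have hπs : Function.Surjective π := QuotientGroup.mk'_surjective _
    have hHq : Sml p k M (H ⧸ i.range) := sml_surj hH π hπs
    have hker : ∀ g, π g = 1 ↔ ∃ z, i z = g := fun g => QuotientGroup.eq_one_iff g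
    obtain ⟨s, e, c, hs1, hs2, he, hse, hcc, hsi⟩ := cx i hi hc π hπs hker
    have hcmul : ∀ x y : H, c (x * y) = c x + c y + e (π x) (π y) := by
      intro x y
      refine hsi _ _ (π (x * y)) ?_
      rw [← hcc (x * y)]
      conv_lhs => rw [hcc x, hcc y]
      rw [map_mul, ofAdd_add, ofAdd_add, map_mul, map_mul]
      calc i (Multiplicative.ofAdd (c x)) * s (π x) * (i (Multiplicative.ofAdd (c y)) * s (π y))
          = i (Multiplicative.ofAdd (c x)) * (s (π x) * i (Multiplicative.ofAdd (c y))) *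
              s (π y) := by simp only [mul_assoc]
        _ = i (Multiplicative.ofAdd (c x)) * i (Multiplicative.ofAdd (c y)) *
              (s (π x) * s (π y)) := by
            rw [← hc]
            simp only [mul_assoc]
        _ = _ := by rw [hse, ← mul_assoc]
    have h1 := ih _ hlt (H ⧸ i.range) rfl hHq (π.comp φ) (ft_comp π hφ)
    set x : H := blk B.pl v (fun i => φ (A.a i)) (fun i => φ (B.b i)) with hx
    have h2 : π x = 1 := by
      rw [hx, map_blk]
      exact h1
    have h3 := hB v hv H (H ⧸ i.range) π (fun a b => ST.tz p m (e a b))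
      (fun a => ST.tz p m (c a)) hπs (fun z hz h => by
        obtain ⟨y, rfl⟩ := (hker z).1 hz
        exact hc y h) (fun a => by rw [he.l1, map_zero]) (fun a => by rw [he.r1, map_zero])
      (fun a b => by
        show ST.tz p m (c (a * b)) = ST.tz p m (c a) + ST.tz p m (c b) +
          ST.tz p m (e (π a) (π b))
        rw [hcmul, map_add, map_add]) (sml_lw hH) (sml_rsm hHq) (π.comp φ)
      (ft_comp π hφ) (fun i => φ (A.a i)) (fun i => φ (B.b i)) (fun _ _ => rfl) fun _ _ => rfl
    have h4 := hI 0 (fun v' σ => if v' = v then ST.tz p m (c (φ σ)) else 0) (by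
        refine ⟨PUnit, inferInstance, inferInstance, 1, fun _ _ => 0, fun _ _ _ _ => rfl, ?_,
          fun _ => rfl, fun _ => rfl, fun _ _ => rfl⟩
        exact ⟨⊥, inferInstance, fun σ _ => by rw [MonoidHom.mem_ker, MonoidHom.one_apply]⟩)
      (fun σ τ υ => by
        show (0 : ZMod (p ^ m)) - 0 + 0 - 0 = 0
        ring) (fun v' => by
        obtain ⟨E, hE, hk⟩ := hφ
        refine ⟨E, hE, fun σ u hu => ?_⟩
        have h5 : φ u = 1 := MonoidHom.mem_ker.1 (hk hu)
        simp only [map_mul, h5, mul_one])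
    have h5 : (rs D Q fun v' σ τ => (0 : Gal(Ω/K) → Gal(Ω/K) → ZMod (p ^ m)) σ τ -
        d1 (fun σ : Gal(Ω/K) => if v' = v then ST.tz p m (c (φ σ)) else 0) σ τ) =
        rs D Q fun v' σ τ => if v' = v then (fun a b => ST.tz p m (e a b)) ((π.comp φ) σ)
          ((π.comp φ) τ) else 0 := by
      funext v' σ τ
      unfold rs
      by_cases hd : v' ∈ D.S0 ∧ σ ∈ dec (K := K) (Q.P v') ∧ τ ∈ dec (K := K) (Q.P v')
      · rw [if_pos hd, if_pos hd]
        unfold d1
        by_cases hvv : v' = v
        · simp only [if_pos hvv]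
          rw [map_mul, hcmul, map_add, map_add]
          show (0 : ZMod (p ^ m)) - _ = ST.tz p m (e (π (φ σ)) (π (φ τ)))
          ring
        · simp only [if_neg hvv]
          show (0 : ZMod (p ^ m)) - _ = 0
          ring
      · rw [if_neg hd, if_neg hd]
    rw [h5, h3, ts1_zero, map_zero, neg_eq_zero] at h4
    have h6 : ST.tz p m (c x) = 0 := by
      apply ZMod.toAddCircle_injective (N := p ^ m)
      rw [h4, map_zero]
    have h7 : c x = 0 := ST.tz_inj hp hm (by rw [h6, map_zero])
    rw [hcc x, h7, h2, hs1, ofAdd_zero, map_one, one_mul]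

end H77.S3
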