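import Pool.Agent.H77.S3.Blk

/-!
# [H77 S3 CRT] the honesty criterion, places at `S0` included

* `hon_rel`: the relations of honest homomorphisms: `[φ t_v, φ F_v] = 1` for `v ∉ S0`, `blk (φ a) (φ b) = 1` for `v ∈ S0`.
* `crit`: `θ : FW A → H`, `H` small, `θ t_v = 1` for `v ∉ Z` and for `v ∈ S0`; if `[θ t_v, θ (X v)] = 1` for `v ∈ Z` outside `S0` and the blocks at `S0` are `1`, then `θ = hat φ` for an honest `φ`.
-/

set_option autoImplicit false
set_option linter.dupNamespace false

open scoped NumberField commutatorElement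
open IsDedekindDomain
open scoped Classical

noncomputable section

namespace H77.S3

open H63.MA H38.BB H38.BG H57.PC H57.BRA H57.GP H77.WD Pool.Agent.H19.NF
  Pool.Agent.H19.AB Pool.Agent.H19.A2 H77.WE Pool.Agent.H19

variable {K : Type} [Field K] [NumberField K] {Ω : Type} [Field Ω] [Algebra K Ω] [IsAlgClosure K Ω]
  {p : ℕ} {ζ : K}

theorem hon_frm (hp : p.Prime) (hζ : IsPrimitiveRoot ζ p) {k M j : ℕ} {z : K}
    (hz : IsPrimitiveRoot z (p ^ (j + 1))) (hkj : k ≤ j + 1) {D : RD0 K p ζ} {L : LDs D Ω}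
    (Fr : FR L) {v : Pl K} (hv : v ∉ D.S0) {H : Type} [Group H] [Finite H] (hH : Sml p k M H)
    (φ : Gal(Ω/K) →* H) (hφ : H38.ML.FT φ) :
    φ (Fr.F v) * φ (L.t v) = φ (L.t v) * φ (Fr.F v) := by
  refine frm hp hζ hz Fr hv φ hφ fun τ _ => ?_
  obtain ⟨i, hi⟩ := pow_dvd_pow p hkj
  rw [hi, pow_mul, hH.2.2, one_pow]

theorem crit (hp : p.Prime) (hζ : IsPrimitiveRoot ζ p) {k M m : ℕ}
    [NeZero (p ^ m)] {D : RD0 K p ζ} {L : LDs D Ω} {Q : DP K Ω} {Fr : FR L}
    {I : ((Gal(Ω/K) → Gal(Ω/K) → Gal(Ω/K) → ZMod (p ^ m)) ×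
      (Pl K → Gal(Ω/K) → Gal(Ω/K) → ZMod (p ^ m))) →+ AddCircle (1 : ℝ)}
    (hF : FF p k m D L Q Fr I) {A : GS D Ω} {B : SD D Q A} (hB : LOC k M D Q I A B)
    {Z : Finset (Pl K)} {X : Pl K → FW A} {Y : Fin A.g → FW A} (hW : Wds k M L Fr A B Z X Y)
    (n : ℕ) : ∀ (H : Type) [Group H] [Finite H], Nat.card H = n → Sml p k M H →
      ∀ θ : FW A →* H, (∀ v, v ∉ Z ∨ v ∈ D.S0 → θ (FreeGroup.of (Sum.inl v)) = 1) →
      (∀ v ∈ Z, v ∉ D.S0 → ⁅θ (FreeGroup.of (Sum.inl v)), θ (X v)⁆ = 1) →
      (∀ v ∈ D.S0, blk B.pl v (fun i => θ (FreeGroup.of (Sum.inr i))) (fun i => θ (Y i)) = 1) →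
      ∃ φ : Gal(Ω/K) →* H, Unz L Z φ ∧ hat L A φ = θ := by
  have hp0 : NeZero p := ⟨hp.ne_zero⟩
  induction n using Nat.strong_induction_on with
  | _ n ih =>
    intro H _ _ hn hH θ h2 h3 h4
    rcases subsingleton_or_nontrivial H with hs | hnt
    · refine ⟨1, ⟨⟨⊥, inferInstance, fun σ _ => by
        rw [MonoidHom.mem_ker, MonoidHom.one_apply]⟩, fun v _ _ => Subsingleton.elim _ _⟩, ?_⟩
      exact MonoidHom.ext fun x => Subsingleton.elim _ _
    obtain ⟨i, hi, hc⟩ := pg_cen hp hH.1 hnt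
    have hnorm : i.range.Normal := by
      refine ⟨fun x hx g => ?_⟩
      obtain ⟨z, rfl⟩ := hx
      rw [← hc, mul_inv_cancel_right]
      exact ⟨z, rfl⟩
    have hlt : Nat.card (H ⧸ i.range) < n := by
      have h1 := Subgroup.card_eq_card_quotient_mul_card_subgroup i.range
      have h2 : Nat.card i.range = p := by
        rw [← Nat.card_congr (MonoidHom.ofInjective hi).toEquiv,
          Nat.card_congr Multiplicative.toAdd, Nat.card_zmod]
      have h3 : 0 < Nat.card (H ⧸ i.range) := Nat.card_pos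
      rw [h2, hn] at h1
      rw [h1]
      exact lt_mul_of_one_lt_right h3 hp.one_lt
    set π : H →* H ⧸ i.range := QuotientGroup.mk' i.range with hπ
    have hπs : Function.Surjective π := QuotientGroup.mk'_surjective _
    have hHq : Sml p k M (H ⧸ i.range) := sml_surj hH π hπs
    have hker : ∀ g, π g = 1 ↔ ∃ z, i z = g := fun g => QuotientGroup.eq_one_iff g
    obtain ⟨s, e, c, hs1, hs2, he, hse, hcc, hsi⟩ := cx i hi hc π hπs hker
    -- the homomorphism to the quotient
    obtain ⟨φ', hφ1, hφ2⟩ := ih _ hlt (H ⧸ i.range) rfl hHq (π.comp θ)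
      (fun v hv => by rw [MonoidHom.comp_apply, h2 v hv, map_one])
      (fun v hv hv0 => by
        simp only [MonoidHom.comp_apply]
        rw [← map_commutatorElement, h3 v hv hv0, map_one])
      (fun v hv => by
        have h5 := congrArg π (h4 v hv)
        rw [map_blk, map_one] at h5
        exact h5)
    have hcmul : ∀ x y : H, c (x * y) = c x + c y + e (π x) (π y) := by
      intro x y
      refine hsi _ _ (π (x * y)) ?_
      rw [← hcc (x * y)]
      conv_lhs => rw [hcc x, hcc y]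
      rw [map_mul, ofAdd_add, ofAdd_add, map_mul, map_mul]
      calc i (Multiplicative.ofAdd (c x)) * s (π x) * (i (Multiplicative.ofAdd (c y)) * s (π y))
          = i (Multiplicative.ofAdd (c x)) * (s (π x) * i (Multiplicative.ofAdd (c y))) *
              s (π y) := by simp only [mul_assoc]
        _ = i (Multiplicative.ofAdd (c x)) * i (Multiplicative.ofAdd (c y)) *
              (s (π x) * s (π y)) := by
            rw [← hc]
            simp only [mul_assoc]
        _ = _ := by rw [hse, ← mul_assoc]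
    have hc1 : c 1 = 0 := by
      have h5 := hcmul 1 1
      rw [mul_one, map_one, he.l1, add_zero] at h5
      linear_combination -h5
    have htv : ∀ v, φ' (L.t v) = π (θ (FreeGroup.of (Sum.inl v))) := by
      intro v
      rw [← hat_inl L A φ' v, hφ2]
      rfl
    have hai : ∀ j, φ' (A.a j) = π (θ (FreeGroup.of (Sum.inr j))) := by
      intro j
      rw [← hat_inr L A φ' j, hφ2]
      rfl
    have hFv : ∀ v ∈ Z, φ' (Fr.F v) = π (θ (X v)) := by
      intro v hv
      rw [← (hW _ hHq φ' hφ1).1 v hv, hφ2]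
      rfl
    have hbi : ∀ j, φ' (B.b j) = π (θ (Y j)) := by
      intro j
      rw [← (hW _ hHq φ' hφ1).2 j, hφ2]
      rfl
    have hTv : Tv (pb e φ') := by
      refine hF (H ⧸ i.range) e he φ' hHq.2.2 hφ1.1 (fun v hv => ?_) fun v hv => ?_
      · by_cases hvZ : v ∈ Z
        · rw [hFv v hvZ, htv v]
          unfold iv
          rw [sub_eq_zero]
          have h5 := commutatorElement_eq_one_iff_mul_comm.1 (h3 v hvZ hv)
          have h7 := hcmul (θ (X v)) (θ (FreeGroup.of (Sum.inl v)))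
          have h8 := hcmul (θ (FreeGroup.of (Sum.inl v))) (θ (X v))
          rw [h5, h7] at h8
          linear_combination h8
        · rw [hφ1.2 v hv hvZ]
          unfold iv
          rw [he.l1, he.r1, sub_zero]
      · have h5 := hB v hv H (H ⧸ i.range) π (fun a b => ST.tz p m (e a b))
          (fun a => ST.tz p m (c a)) hπs (fun z hz h => by
            obtain ⟨y, rfl⟩ := (hker z).1 hz
            exact hc y h) (fun a => by rw [he.l1, map_zero]) (fun a => by rw [he.r1, map_zero])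
          (fun a b => by
            show ST.tz p m (c (a * b)) = ST.tz p m (c a) + ST.tz p m (c b) +
              ST.tz p m (e (π a) (π b))
            rw [hcmul, map_add, map_add]) (sml_lw hH) (sml_rsm hHq) φ' hφ1.1
          (fun j => θ (FreeGroup.of (Sum.inr j))) (fun j => θ (Y j)) (fun j _ => (hai j).symm)
          fun j _ => (hbi j).symm
        have h6 : (rs D Q (at1 e φ' v) : Pl K → Gal(Ω/K) → Gal(Ω/K) → ZMod (p ^ m)) =
            rs D Q fun v' σ τ => if v' = v then (fun a b => ST.tz p m (e a b)) (φ' σ) (φ' τ)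
              else 0 := rfl
        rw [h6, h5]
        simp only [h4 v hv, hc1, map_zero, neg_zero]
    -- a lift
    obtain ⟨l, ⟨E₁, hE₁, hl1⟩, hl2⟩ := hTv
    have hl0 : l 1 = 0 := by
      have h5 := hl2 1 1
      unfold pb at h5
      rw [map_one, he.l1, add_zero, mul_one] at h5
      linear_combination -h5
    obtain ⟨E', hE', hk'⟩ := hφ1.1
    set φ₁ : Gal(Ω/K) →* H := MonoidHom.mk' (fun σ => i (Multiplicative.ofAdd (l σ)) * s (φ' σ))
      (by
        intro σ τ
        rw [hl2, ofAdd_add, ofAdd_add, map_mul, map_mul]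
        unfold pb
        calc i (Multiplicative.ofAdd (l σ)) * i (Multiplicative.ofAdd (l τ)) *
              i (Multiplicative.ofAdd (e (φ' σ) (φ' τ))) * s (φ' (σ * τ))
            = i (Multiplicative.ofAdd (l σ)) * i (Multiplicative.ofAdd (l τ)) *
              (s (φ' σ) * s (φ' τ)) := by rw [hse, map_mul φ', mul_assoc]
          _ = i (Multiplicative.ofAdd (l σ)) * (i (Multiplicative.ofAdd (l τ)) * s (φ' σ)) *
              s (φ' τ) := by simp only [mul_assoc]
          _ = _ := by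
            rw [hc (Multiplicative.ofAdd (l τ)) (s (φ' σ))]
            simp only [mul_assoc]) with hφ₁
    have e1 : ∀ σ, φ₁ σ = i (Multiplicative.ofAdd (l σ)) * s (φ' σ) := fun _ => rfl
    have hft1 : H38.ML.FT φ₁ := by
      refine ⟨E₁ ⊔ E', inferInstance, fun u hu => ?_⟩
      have e2 : u ∈ E₁.fixingSubgroup :=
        IntermediateField.fixingSubgroup_antitone le_sup_left hu
      have e3 : u ∈ E'.fixingSubgroup := IntermediateField.fixingSubgroup_antitone le_sup_right hu
      have e4 : φ' u = 1 := MonoidHom.mem_ker.1 (hk' e3)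
      have e5 : l u = 0 := by
        have := hl1 1 u e2
        rw [one_mul] at this
        rw [this, hl0]
      rw [MonoidHom.mem_ker, e1, e4, e5, hs1, ofAdd_zero, map_one, mul_one]
    have hπ1 : ∀ σ, π (φ₁ σ) = φ' σ := by
      intro σ
      have h5 : π (i (Multiplicative.ofAdd (l σ))) = 1 := (hker _).2 ⟨_, rfl⟩
      rw [e1, map_mul, h5, one_mul, hs2]
    -- correction by a character
    have hcor : ∀ g h : H, π g = π h → ∃ a : ZMod p, g = h * i (Multiplicative.ofAdd a) := by
      intro g h hgh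
      obtain ⟨z, hz'⟩ := (hker (h⁻¹ * g)).1 (by rw [map_mul, map_inv, hgh, inv_mul_cancel])
      refine ⟨Multiplicative.toAdd z, ?_⟩
      rw [ofAdd_toAdd, hz', mul_inv_cancel_left]
    have hn1 : ∀ v, ∃ a : ZMod p, v ∉ D.S0 →
        θ (FreeGroup.of (Sum.inl v)) = φ₁ (L.t v) * i (Multiplicative.ofAdd a) := by
      intro v
      by_cases hv : v ∈ D.S0
      · exact ⟨0, fun h => absurd hv h⟩
      · obtain ⟨a, ha⟩ := hcor (θ (FreeGroup.of (Sum.inl v))) (φ₁ (L.t v)) (by
          rw [hπ1, htv])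
        exact ⟨a, fun _ => ha⟩
    choose nv hnv using hn1
    have hm1 : ∀ j : Fin A.g, ∃ a : ZMod p,
        θ (FreeGroup.of (Sum.inr j)) = φ₁ (A.a j) * i (Multiplicative.ofAdd a) := by
      intro j
      refine hcor _ _ ?_
      rw [hπ1, hai]
    choose mj hmj using hm1
    have hfin : {v : Pl K | v ∉ D.S0 ∧ φ₁ (L.t v) ≠ 1}.Finite := ram_finite hp D L φ₁ hft1
    set T : Finset (Pl K) := (hfin.toFinset ∪ Z).filter fun v => v ∉ D.S0 with hT
    obtain ⟨χ, hχ1, hχ2, hχ3⟩ := ch_ex hp hζ L A T (fun v hv => (Finset.mem_filter.1 hv).2) nv mj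
    set φ : Gal(Ω/K) →* H := ctypF i hc φ₁ χ with hφ
    have hft : H38.ML.FT φ := ctypF_ft i hc _ _ hft1 hχ1
    have ht : ∀ v, v ∉ D.S0 → φ (L.t v) = θ (FreeGroup.of (Sum.inl v)) := by
      intro v hv
      rw [hφ, ctypF_apply, hχ2 v hv]
      by_cases hvT : v ∈ T
      · rw [if_pos hvT, hnv v hv]
      · rw [if_neg hvT, ofAdd_zero, map_one, mul_one]
        have h5 : ¬ (φ₁ (L.t v) ≠ 1) ∧ v ∉ Z := by
          rw [hT, Finset.mem_filter, Finset.mem_union, Set.Finite.mem_toFinset] at hvT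
          push Not at hvT
          have h6 : ¬ ((v ∉ D.S0 ∧ φ₁ (L.t v) ≠ 1) ∨ v ∈ Z) := fun h => hv (hvT h)
          push Not at h6
          exact ⟨fun h => h (h6.1 hv), h6.2⟩
        rw [not_not.1 h5.1, h2 v (Or.inl h5.2)]
    have ha : ∀ j, φ (A.a j) = θ (FreeGroup.of (Sum.inr j)) := by
      intro j
      rw [hφ, ctypF_apply, hχ3, hmj]
    refine ⟨φ, ⟨hft, fun v hv hz => ?_⟩, FreeGroup.ext_hom _ _ fun x => ?_⟩
    · rw [ht v hv, h2 v (Or.inl hz)]
    · rcases x with v | j
      · rw [hat_inl]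
        by_cases hv : v ∈ D.S0
        · rw [t_S0 L hv, map_one, h2 v (Or.inr hv)]
        · exact ht v hv
      · rw [hat_inr]
        exact ha j

end H77.S3
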