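import Pool.Agent.H77.S3.Lrm
import Pool.Agent.H24.S3.Df

/-!
# [H77 S3 LRX] the local relator in the form `Lcr`

`lrlx`: `H24.S3.lrl` for `v ∈ S0`, `k ≤ m`, from `lrr`.
-/

set_option autoImplicit false
set_option linter.dupNamespace false

open scoped NumberField commutatorElement
open IsDedekindDomain
open scoped Classical

noncomputable section

namespace H77.S3

open H63.MA H38.BB H38.BG H57.PC H57.BRA H57.GP H77.WD Pool.Agent.H19.NF
  Pool.Agent.H19.AB Pool.Agent.H19.A2 H77.WE Pool.Agent.H19 H24.S3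

variable {K : Type} [Field K] [NumberField K] {Ω : Type} [Field Ω] [Algebra K Ω] [IsAlgClosure K Ω]
  {p m : ℕ} {ζ : K}

theorem lrlx (hp : p.Prime) (hζ : IsPrimitiveRoot ζ p) {k : ℕ} (M : ℕ) (hkm : k ≤ m)
    [NeZero (p ^ m)] {D : RD0 K p ζ} {L : LDs D Ω} {Q : DP K Ω} {Fr : FR L} {I : Fnl K Ω p m}
    (hI : FnC p k m D L Q Fr I) {v : Pl K} (hv : v ∈ D.S0) {r : ℕ} (x : Lgn p ζ Q v r) :
    ∃ ρ : FreeGroup (Fin r), Lcr k M D Q I v x.x ρ := by
  obtain ⟨ρ, h1, h2⟩ := lrr (M := M) hp hζ hkm hI hv x.mem fun c hc σ hσ => by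
    rw [x.all c σ hσ]
    exact Finset.sum_eq_zero fun i _ => by rw [hc, zero_mul]
  refine ⟨ρ, ⟨fun R _ _ hR φ hφ => ?_, fun H H' _ _ _ _ π e c hπ hc he1 he2 hcm hH hH' lam hlam θ
    hθ => ?_⟩⟩
  · by_contra hne
    obtain ⟨S, i1, i2, f, hS, hf⟩ := hR _ hne
    apply hf
    have h3 := h2 S hS (f.comp φ) (ft_comp f hφ)
    have h4 : (f.comp φ).comp (FreeGroup.lift x.x) =
        FreeGroup.lift (fun j => (f.comp φ) (x.x j)) := FreeGroup.ext_hom _ _ fun j => by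
      rw [MonoidHom.comp_apply, FreeGroup.lift_apply_of, FreeGroup.lift_apply_of]
    rw [← h4] at h3
    exact h3
  · have h3 := h1 H H' π e c hπ hc he1 he2 hcm hH hH' lam hlam (fun j => θ (FreeGroup.of j)) hθ
    have h4 : FreeGroup.lift (fun j => θ (FreeGroup.of j)) = θ := FreeGroup.ext_hom _ _ fun j => by
      rw [FreeGroup.lift_apply_of]
    rw [h4] at h3
    exact h3

end H77.S3
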