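import Pool.Agent.H24.S3.Trs
import Pool.Agent.H24.S3.Lgx
import Pool.Agent.H24.S3.Lda
import Pool.Agent.H24.S3.Ldb
import Pool.Agent.H24.S3.Syl
import Pool.Agent.H77.S3.Lrx

/-!
# [H77 S3 LCA] (N7) the generators `A`, `B` with the local relation `LOC`

`lca`: from `FnC`: there are `A : GS D Ω` and `B : SD D Q A` with `LOC k M D Q I A B`. Proof: `trs` (coordinates dual to a basis of the `S0`-units), for every `v ∈ S0` `lgx`, `lrlx`, `lda`, `ldb`, `syl` with these coordinates.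
-/

set_option autoImplicit false
set_option linter.dupNamespace false

open scoped NumberField commutatorElement
open IsDedekindDomain
open scoped Classical

noncomputable section

namespace H77.S3

open H63.MA H38.BB H38.BG H57.PC H57.BRA H89.BRG H57.RQ H24.RK Pool.Agent.H19.NF
  Pool.Agent.H19.AB Pool.Agent.H19.A2 Pool.Agent.H19 H77.WD H77.WE H77.GL H82.SF H24.S3

variable {K : Type} [Field K] [NumberField K] {Ω : Type} [Field Ω] [Algebra K Ω]
  [IsAlgClosure K Ω] {p m : ℕ} {ζ : K}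

theorem lca (hp : p.Prime) (hp2 : MOne p K) (hζ : IsPrimitiveRoot ζ p) {n k M : ℕ} (hk : k = n + 1)
    (hk2 : p = 2 → 2 ≤ k) (hkm : k ≤ m) {z : K} (hz : IsPrimitiveRoot z (p ^ (n + 1)))
    (hzζ : z ^ p ^ n = ζ) (hM : p ^ k ≤ M) (hM3 : p ^ 3 ≤ M) [NeZero (p ^ m)] {D : RD0 K p ζ}
    {L : LDs D Ω} {Q : DP K Ω} {Fr : FR L} {I : Fnl K Ω p m} (hI : FnC p k m D L Q Fr I) :
    ∃ (A : GS D Ω) (B : SD D Q A), LOC k M D Q I A B := by
  obtain ⟨T⟩ := trs (Ω := Ω) hp hp2 hζ D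
  have hls : ∀ v : Pl K, ∃ l : List {i : Fin T.g // T.pl i = v},
      l.map Subtype.val = (List.finRange T.g).filter fun i => T.pl i = v := fun v =>
    CanLift.prf (β := List {i : Fin T.g // T.pl i = v}) _ fun i hi => by
      rw [List.mem_filter] at hi
      exact of_decide_eq_true hi.2
  choose l hl using hls
  have hls1 : ∀ v, (l v).Nodup := fun v => List.Nodup.of_map Subtype.val (by
    rw [hl v]
    exact (List.nodup_finRange T.g).filter _)
  have hls2 : ∀ v, ∀ i, i ∈ l v := fun v i => by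
    have h1 : i.1 ∈ (l v).map Subtype.val := by
      rw [hl v, List.mem_filter]
      exact ⟨List.mem_finRange _, decide_eq_true i.2⟩
    obtain ⟨j, hj, hji⟩ := List.mem_map.1 h1
    rw [← Subtype.ext hji]
    exact hj
  have hsy : ∀ v (hv : v ∈ D.S0), ∃ a b : {i : Fin T.g // T.pl i = v} → Gal(Ω/K),
      (∀ i, a i ∈ dec (K := K) (Q.P v)) ∧ (∀ i, b i ∈ dec (K := K) (Q.P v)) ∧
      (∀ i c, kk p ζ c (a i) = (T.S v hv).A i c) ∧ (∀ i c, kk p ζ c (b i) = (T.S v hv).B i c) ∧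
      LOv k M D Q I v (l v) a b := fun v hv => by
    obtain ⟨r, ⟨x⟩⟩ := lgx hp hp2 hζ Q v
    obtain ⟨ρ, hρ⟩ := lrlx hp hζ M hkm hI hv x
    exact syl hp hp2 hζ (by omega) hk2 hM3 x hρ (lda hp hζ hk hz hzζ hM x hρ.rel)
      (ldb hp hp2 hζ (by omega) hk2 hM3 (by omega) hI hv hρ) (T.S v hv) (hls1 v) (hls2 v)
  choose a b ha hb hka hkb hLO using hsy
  let A : GS D Ω := ⟨T.g, fun i => a (T.pl i) (T.mem i) ⟨i, rfl⟩, T.u, T.tu, fun i j => by
    rw [hka]
    exact T.dual i j, T.span⟩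
  let B : SD D Q A := ⟨fun i => b (T.pl i) (T.mem i) ⟨i, rfl⟩, T.pl, T.mem, fun i => ha _ _ _,
    fun i => hb _ _ _⟩
  refine ⟨A, B, fun v hv H H' _ _ _ _ π e c hπ hc he1 he2 hcm hH hH' lam hlam x y hx hy => ?_⟩
  have h1 := hLO v hv H H' π e c hπ hc he1 he2 hcm hH hH' lam hlam (fun j => x j.1)
    (fun j => y j.1) (fun j => by
      obtain ⟨i, rfl⟩ := j
      exact hx i rfl) fun j => by
      obtain ⟨i, rfl⟩ := j
      exact hy i rfl
  refine h1.trans ?_
  have h2 : cw (l v) (fun j => x j.1) (fun j => y j.1) = blk T.pl v x y := by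
    unfold cw blk
    rw [← hl v, List.map_map]
    rfl
  rw [h2]

end H77.S3
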