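import Pool.Agent.H77.S3.Rla

/-!
# [H77 S3 REL] the relation (R)

`rel_ex`: words `X v`, `Y i` with `Rel`, for every finite `Z` outside `S0` and every order `l` of the places of `Z` and `S0`.
-/

set_option autoImplicit false
set_option linter.dupNamespace false

open scoped NumberField commutatorElement
open IsDedekindDomain
open scoped Classical

noncomputable section

namespace H77.S3

open H63.MA H38.BB H38.BG H57.PC H57.BRA H57.GP H77.WD Pool.Agent.H19.NF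
  Pool.Agent.H19.AB Pool.Agent.H19.A2 H77.WE Pool.Agent.H19

variable {K : Type} [Field K] [NumberField K] {Ω : Type} [Field Ω] [Algebra K Ω] [IsAlgClosure K Ω]
  {p : ℕ} {ζ : K}

theorem jt_finite (hp : p.Prime) (hζ : IsPrimitiveRoot ζ p) {D : RD0 K p ζ} (L : LDs D Ω)
    (A : GS D Ω) (k M : ℕ) (Z : Finset (Pl K)) : Finite (JT L k M Z) := by
  have h := hon_finU hp hζ L A Z (Equiv.Perm (Fin M))
  have h1 : Finite {φ : Gal(Ω/K) →* Equiv.Perm (Fin M) // Unz L Z φ ∧ IsPGroup p φ.range} :=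
    h.to_subtype
  exact Finite.of_injective (fun φ : JT L k M Z =>
    (⟨φ.1, φ.2.2, φ.2.1.1⟩ : {φ : Gal(Ω/K) →* Equiv.Perm (Fin M) //
      Unz L Z φ ∧ IsPGroup p φ.range})) fun φ φ' h => Subtype.ext (congrArg (·.1) h)

omit [IsAlgClosure K Ω] in
theorem sml_range {k M : ℕ} {H S : Type} [Group H] [Finite H] [Group S] (hH : Sml p k M H)
    (j : H →* S) {T : Type} [Group T] (φ : T →* H) : Sml p k M (j.comp φ).range := by
  have h1 : Sml p k M φ.range := sml_inj hH φ.range.subtype (Subgroup.subtype_injective _)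
  let g : φ.range →* (j.comp φ).range :=
    { toFun := fun x => ⟨j x.1, by
        obtain ⟨y, hy⟩ := x.2
        exact ⟨y, by rw [MonoidHom.comp_apply, hy]⟩⟩
      map_one' := Subtype.ext (map_one j)
      map_mul' := fun x y => Subtype.ext (map_mul j x.1 y.1) }
  refine sml_surj h1 g ?_
  rintro ⟨_, x, rfl⟩
  exact ⟨⟨φ x, x, rfl⟩, rfl⟩

theorem rel_ex (hp : p.Prime) (hζ : IsPrimitiveRoot ζ p) {k M m j : ℕ} {z : K}
    (hz : IsPrimitiveRoot z (p ^ (j + 1))) (hkj : k ≤ j + 1) (hkm : k ≤ m)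
    [NeZero (p ^ m)] (hm : 1 ≤ m) {D : RD0 K p ζ} {L : LDs D Ω} {Q : DP K Ω} {Fr : FR L}
    {I : ((Gal(Ω/K) → Gal(Ω/K) → Gal(Ω/K) → ZMod (p ^ m)) ×
      (Pl K → Gal(Ω/K) → Gal(Ω/K) → ZMod (p ^ m))) →+ AddCircle (1 : ℝ)}
    (hI : FnC p k m D L Q Fr I) {A : GS D Ω} {B : SD D Q A} (hB : LOC k M D Q I A B)
    {Z : Finset (Pl K)} (hZ : ∀ v ∈ Z, v ∉ D.S0) {l : List (Pl K)}
    (hl : l.Nodup) (hlZ : ∀ v, v ∈ l ↔ v ∈ Z ∨ v ∈ D.S0) :
    ∃ (X : Pl K → FW A) (Y : Fin A.g → FW A), Rel k M L Fr A B Z l X Y := by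
  have hpf : Fact p.Prime := ⟨hp⟩
  have i1 : Finite (IT A k M Z) := it_finite A k M Z
  have i2 : Finite (JT L k M Z) := jt_finite hp hζ L A k M Z
  set G : Subgroup (IT A k M Z → Equiv.Perm (Fin M)) := (Th A k M Z).range with hGdef
  have hLG : Lw p k M G := lw_pi (fun θ : IT A k M Z => θ.1) fun θ => θ.2.1
  have hpG : IsPGroup p G := fun x => ⟨k, lw_pow hLG x⟩
  have hnil : Group.IsNilpotent G := hpG.isNilpotent
  -- the honest side
  have hsm : ∀ φ : JT L k M Z, Sml p k M φ.1.range := fun φ => φ.2.1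
  have hRH : Rsm p k M (Ph L k M Z).range := rsm_pi (fun φ : JT L k M Z => φ.1) hsm
  have hLH : Lw p k M (Ph L k M Z).range := lw_pi (fun φ : JT L k M Z => φ.1) hsm
  have hpH : IsPGroup p (Ph L k M Z).range := fun x => ⟨k, lw_pow hLH x⟩
  have hPu : Unz L Z (Ph L k M Z) :=
    ⟨ft_pi _ fun φ => φ.2.2.1, fun v hv hz => funext fun φ => φ.2.2.2 v hv hz⟩
  have hfra := fraU hp hζ L A Z (Ph L k M Z) hPu hpH
  set Φ : Gal(Ω/K) →* (Ph L k M Z).range := (Ph L k M Z).rangeRestrict with hΦdef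
  have hΦ : Unz L Z Φ := by
    obtain ⟨⟨E, hE, hk⟩, h2⟩ := hPu
    refine ⟨⟨E, hE, fun σ hσ => ?_⟩, fun v hv hz => Subtype.ext (h2 v hv hz)⟩
    have h1 := MonoidHom.mem_ker.1 (hk hσ)
    exact MonoidHom.mem_ker.2 (Subtype.ext h1)
  -- the map
  have hmem : ∀ x : G, pr L A k M Z x.1 ∈ (Ph L k M Z).range := by
    rintro ⟨_, w, rfl⟩
    rw [pr_th]
    exact hat_range L A _ ⟨w, rfl⟩
  let f : G →* (Ph L k M Z).range :=
    { toFun := fun x => ⟨pr L A k M Z x.1, hmem x⟩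
      map_one' := Subtype.ext (map_one _)
      map_mul' := fun x y => Subtype.ext (map_mul _ x.1 y.1) }
  let T : FW A →* G := (Th A k M Z).rangeRestrict
  have hfT : ∀ w, (f (T w)).1 = hat L A (Ph L k M Z) w := fun w => pr_th L A k M Z w
  have hf : Function.Surjective f := by
    rintro ⟨x, hx⟩
    rw [← hfra] at hx
    obtain ⟨w, -, rfl⟩ := hx
    exact ⟨T w, Subtype.ext (hfT w)⟩
  have hex : ∀ σ : Gal(Ω/K), ∃ w, f (T w) = Φ σ := by
    intro σ
    have h1 : (Ph L k M Z) σ ∈ (OnZ A Z).map (hat L A (Ph L k M Z)) := by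
      rw [hfra]
      exact ⟨σ, rfl⟩
    obtain ⟨w, -, hw⟩ := h1
    exact ⟨w, Subtype.ext ((hfT w).trans hw)⟩
  choose w₀ hw₀ using hex
  let t : Pl K → G := fun v => T (FreeGroup.of (Sum.inl v))
  let a : Fin A.g → G := fun i => T (FreeGroup.of (Sum.inr i))
  have ht : ∀ v ∈ Z, f (t v) = Φ (L.t v) := fun v _ => Subtype.ext (by
    rw [hfT, hat_inl]
    rfl)
  have ha : ∀ i, f (a i) = Φ (A.a i) := fun i => Subtype.ext (by
    rw [hfT, hat_inr]
    rfl)
  have h1 := rel_aux hp hζ hz hkj hkm hm hI hB hZ hLG hRH f hf Φ hΦ t (fun v => T (w₀ (Fr.F v)))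
    a (fun i => T (w₀ (B.b i))) ht (fun v _ => hw₀ _) ha (fun i => hw₀ _) hl hlZ
  rw [← ltr_prod] at h1
  -- generation
  have hgen : Subgroup.closure {x | ∃ i ∈ ltr B l, Sum.elim t a i = x} = ⊤ := by
    rw [eq_top_iff]
    rintro ⟨x, hx⟩ -
    have h2 : x ∈ (OnZ A Z).map (Th A k M Z) := by
      rw [th_gen]
      exact hx
    obtain ⟨w, hw, rfl⟩ := h2
    have h3 : (OnZ A Z).map T ≤ Subgroup.closure {x | ∃ i ∈ ltr B l, Sum.elim t a i = x} := by
      unfold OnZ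
      rw [MonoidHom.map_closure, Subgroup.closure_le]
      rintro _ ⟨_, ⟨v, hv, rfl⟩ | ⟨i, rfl⟩, rfl⟩
      · exact Subgroup.subset_closure ⟨Sum.inl v, (mem_ltr B).2 (Or.inl
          ⟨v, (hlZ v).2 (Or.inl hv), hZ v hv, rfl⟩), rfl⟩
      · exact Subgroup.subset_closure ⟨Sum.inr i, (mem_ltr B).2 (Or.inr
          ⟨i, (hlZ _).2 (Or.inr (B.mem i)), rfl⟩), rfl⟩
    exact h3 ⟨w, hw, rfl⟩
  obtain ⟨X', hX1, hX2⟩ := abs f.ker (Sum.elim t a) (ltr_nodup B hl) hgen _ h1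
  -- words
  have hwex : ∀ x : G, ∃ w ∈ OnZ A Z, T w = x := by
    rintro ⟨x, hx⟩
    have h2 : x ∈ (OnZ A Z).map (Th A k M Z) := by
      rw [th_gen]
      exact hx
    obtain ⟨w, hw, rfl⟩ := h2
    exact ⟨w, hw, rfl⟩
  choose ww hww1 hww2 using hwex
  have hfX : ∀ i, f (X' i) = f (Sum.elim (fun v => T (w₀ (Fr.F v))) (fun i => T (w₀ (B.b i))) i) := by
    intro i
    have h2 := MonoidHom.mem_ker.1 (hX1 i)
    rw [map_mul, map_inv, inv_mul_eq_one] at h2
    exact h2.symm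
  refine ⟨fun v => ww (X' (Sum.inl v)), fun i => ww (X' (Sum.inr i)), fun v _ => hww1 _,
    fun i => hww1 _, fun H _ _ hH φ hφ => ?_, fun H _ _ hH θ hθ => ?_⟩
  · -- evaluation
    obtain ⟨jj, hj⟩ := emb H hH.2.1
    let ψ : JT L k M Z := ⟨jj.comp φ, sml_range hH jj φ, hφ.comp jj⟩
    have hev : ∀ w, jj (hat L A φ w) = (f (T w)).1 ψ := by
      intro w
      have h2 : (f (T w)).1 ψ = (Th A k M Z w) ⟨hat L A ψ.1, hat_it A ψ⟩ := rfl
      rw [h2]
      show jj (hat L A φ w) = hat L A (jj.comp φ) w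
      rw [hat_comp]
      rfl
    refine ⟨fun v _ => ?_, fun i => ?_⟩
    · apply hj
      rw [hev, hww2, hfX]
      exact congrFun (congrArg Subtype.val (hw₀ (Fr.F v))) ψ
    · apply hj
      rw [hev, hww2, hfX]
      exact congrFun (congrArg Subtype.val (hw₀ (B.b i))) ψ
  · -- the relation
    obtain ⟨jj, hj⟩ := emb H hH.2.1
    let θ' : IT A k M Z := ⟨jj.comp θ, sml_range hH jj θ, fun v hv => by
      rw [MonoidHom.comp_apply, hθ v hv, map_one]⟩
    have h2 : T (((ltr B l).map fun x => ⁅Sum.elim (fun v => FreeGroup.of (Sum.inl v))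
        (fun i => FreeGroup.of (Sum.inr i)) x, Sum.elim (fun v => ww (X' (Sum.inl v)))
        (fun i => ww (X' (Sum.inr i))) x⁆).prod) = 1 := by
      rw [← hX2, map_list_prod, List.map_map]
      congr 1
      apply List.map_congr_left
      intro x _
      show T ⁅_, _⁆ = _
      rw [map_commutatorElement]
      rcases x with v | i
      · show ⁅T (FreeGroup.of (Sum.inl v)), T (ww (X' (Sum.inl v)))⁆ = _
        rw [hww2]
        rfl
      · show ⁅T (FreeGroup.of (Sum.inr i)), T (ww (X' (Sum.inr i)))⁆ = _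
        rw [hww2]
        rfl
    rw [ltr_prod] at h2
    have h3 := congrFun (congrArg Subtype.val h2) θ'
    have h4 : jj (θ ((l.map fun v => wrd B (fun v => FreeGroup.of (Sum.inl v))
        (fun v => ww (X' (Sum.inl v))) (fun i => FreeGroup.of (Sum.inr i))
        (fun i => ww (X' (Sum.inr i))) v).prod)) = 1 := h3
    rw [map_wrds] at h4
    exact hj (by rw [h4, map_one])

end H77.S3
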