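import Pool.Agent.H77.S3.Lrr

/-!
# [H77 S3 LRM] existence of the local relator (N3)

`lrr`: `v ∈ S0`, `dl j ∈ dec v` which detect the Kummer characters on `dec v`: there is a word `ρ` with `LOC0`, and `ρ (lam dl) = 1` for all small `lam` of finite type.
-/

set_option autoImplicit false
set_option linter.dupNamespace false

open scoped NumberField commutatorElement
open IsDedekindDomain
open scoped Classical

noncomputable section

namespace H77.S3

open H63.MA H38.BB H38.BG H57.PC H57.BRA H57.GP H77.WD Pool.Agent.H19.NF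
  Pool.Agent.H19.AB Pool.Agent.H19.A2 H77.WE Pool.Agent.H19

variable {K : Type} [Field K] [NumberField K] {Ω : Type} [Field Ω] [Algebra K Ω] [IsAlgClosure K Ω]
  {p : ℕ} {ζ : K}

theorem lrr (hp : p.Prime) (hζ : IsPrimitiveRoot ζ p) {k M m : ℕ} (hkm : k ≤ m)
    [NeZero (p ^ m)] {D : RD0 K p ζ} {L : LDs D Ω} {Q : DP K Ω} {Fr : FR L}
    {I : ((Gal(Ω/K) → Gal(Ω/K) → Gal(Ω/K) → ZMod (p ^ m)) ×
      (Pl K → Gal(Ω/K) → Gal(Ω/K) → ZMod (p ^ m))) →+ AddCircle (1 : ℝ)}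
    (hI : FnC p k m D L Q Fr I) {v : Pl K} (hv : v ∈ D.S0) {r : ℕ} {dl : Fin r → Gal(Ω/K)}
    (hd : ∀ j, dl j ∈ dec (K := K) (Q.P v))
    (hdl : ∀ c : Kˣ, (∀ j, kk p ζ c (dl j) = 0) → ∀ σ ∈ dec (K := K) (Q.P v), kk p ζ c σ = 0) :
    ∃ ρ : FreeGroup (Fin r), LOC0 k M D Q I v dl ρ ∧
      ∀ (S : Type) [Group S] [Finite S], Sml p k M S → ∀ lam : Gal(Ω/K) →* S, H38.ML.FT lam →
        FreeGroup.lift (fun j => lam (dl j)) ρ = 1 := by
  have i1 : Finite (WT p k M r) := wt_finite p k M r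
  have i2 : Finite (VT (K := K) k M p dl) := inferInstanceAs (Finite {x : Fin r →
    Equiv.Perm (Fin M) // ∃ lam : Gal(Ω/K) →* Equiv.Perm (Fin M),
      H38.ML.FT lam ∧ Sml p k M lam.range ∧ ∀ j, lam (dl j) = x j})
  set Λ := Lam (K := K) k M p dl with hΛ
  have hΛft : H38.ML.FT Λ := ft_pi _ fun x => vl_ft x
  have hΛlw : Lw p k M Λ.range := lw_pi (fun x : VT (K := K) k M p dl => vl x) fun x => vl_sml x
  set E : Subgroup (WT p k M r → Equiv.Perm (Fin M)) := (Tw p k M r).range with hE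
  have hLE : Lw p k M E := lw_pi (fun θ : WT p k M r => θ.1) fun θ => θ.2
  let T : FreeGroup (Fin r) →* E := (Tw p k M r).rangeRestrict
  have hT : Function.Surjective T := (Tw p k M r).rangeRestrict_surjective
  let f : E →* (VT (K := K) k M p dl → Equiv.Perm (Fin M)) := (prv (K := K) k M p dl).comp E.subtype
  have hfT : ∀ w, f (T w) = FreeGroup.lift (fun j => Λ (dl j)) w := fun w => prv_tw k M p dl w
  set N : Subgroup E := ⁅f.ker, (⊤ : Subgroup E)⁆ with hN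
  have hNle : N ≤ f.ker := Subgroup.commutator_le_left _ _
  let q : E →* E ⧸ N := QuotientGroup.mk' N
  have hq : Function.Surjective q := QuotientGroup.mk'_surjective N
  have hqk : ∀ x : E, q x = 1 ↔ x ∈ N := fun x => QuotientGroup.eq_one_iff x
  have hfr : Function.Surjective f.rangeRestrict := f.rangeRestrict_surjective
  obtain ⟨π₀, hπ₀⟩ := desc q hq f.rangeRestrict fun x hx =>
    Subtype.ext (MonoidHom.mem_ker.1 (hNle ((hqk x).1 hx)))
  have hπ₀s : Function.Surjective π₀ := by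
    intro y
    obtain ⟨x, rfl⟩ := hfr y
    exact ⟨q x, hπ₀ x⟩
  have hπq : ∀ x, (π₀ (q x)).1 = f x := fun x => congrArg Subtype.val (hπ₀ x)
  have hcen : ∀ x, π₀ x = 1 → ∀ y, x * y = y * x := by
    intro x hx y
    obtain ⟨x, rfl⟩ := hq x
    obtain ⟨y, rfl⟩ := hq y
    have hx' : f x = 1 := by rw [← hπq, hx]; rfl
    have h1 : ⁅x, y⁆ ∈ N := Subgroup.commutator_mem_commutator (MonoidHom.mem_ker.2 hx') trivial
    have h2 := (hqk _).2 h1
    rw [map_commutatorElement] at h2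
    exact commutatorElement_eq_one_iff_mul_comm.1 h2
  have hLq : Lw p k M (E ⧸ N) := lw_surj hLE q hq
  have hexpm : ∀ x : E ⧸ N, x ^ p ^ m = 1 := fun x => by
    obtain ⟨i, hi⟩ := pow_dvd_pow p hkm
    rw [hi, pow_mul, lw_pow hLq, one_pow]
  -- the central kernel
  let iC : CommGroup π₀.ker := { (inferInstance : Group π₀.ker) with
    mul_comm := fun a b => Subtype.ext (hcen a.1 a.2 b.1) }
  have hCm : ∀ a : π₀.ker, a ^ p ^ m = 1 := fun a => Subtype.ext (hexpm a.1)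
  -- the section
  choose s hs using hπ₀s
  have hz : ∀ y y' : f.range, s y * s y' * (s (y * y'))⁻¹ ∈ π₀.ker := fun y y' => by
    rw [MonoidHom.mem_ker, map_mul, map_mul, map_inv, hs, hs, hs, mul_inv_cancel]
  let zz : f.range → f.range → π₀.ker := fun y y' => ⟨_, hz y y'⟩
  have hn0 : p ^ m ≠ 0 := NeZero.ne _
  let Ψ : (π₀.ker →* Multiplicative (ZMod (p ^ m))) → Gal(Ω/K) → Gal(Ω/K) → ZMod (p ^ m) :=
    fun χ σ τ => if h : Λ σ ∈ f.range ∧ Λ τ ∈ f.range then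
      Multiplicative.toAdd (χ (zz ⟨Λ σ, h.1⟩ ⟨Λ τ, h.2⟩)) else 0
  let AT : (Gal(Ω/K) → Gal(Ω/K) → ZMod (p ^ m)) → Pl K → Gal(Ω/K) → Gal(Ω/K) → ZMod (p ^ m) :=
    fun ψ v' σ τ => if v' = v then ψ σ τ else 0
  have hIadd : ∀ a b : Pl K → Gal(Ω/K) → Gal(Ω/K) → ZMod (p ^ m), I (0, rs D Q (a + b)) =
      I (0, rs D Q a) + I (0, rs D Q b) := by
    intro a b
    rw [← map_add, Prod.mk_add_mk, add_zero]
    congr 2
    funext v' σ τ
    show rs D Q (a + b) v' σ τ = rs D Q a v' σ τ + rs D Q b v' σ τ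
    unfold rs
    split_ifs
    · rfl
    · rw [add_zero]
  let F : (π₀.ker →* Multiplicative (ZMod (p ^ m))) → AddCircle (1 : ℝ) :=
    fun χ => I (0, rs D Q (AT (Ψ χ)))
  have hF : ∀ χ χ', F (χ * χ') = F χ + F χ' := by
    intro χ χ'
    show I (0, rs D Q (AT (Ψ (χ * χ')))) = _
    rw [← hIadd]
    congr 3
    funext v' σ τ
    show (if v' = v then Ψ (χ * χ') σ τ else 0) = (if v' = v then Ψ χ σ τ else 0) +
      (if v' = v then Ψ χ' σ τ else 0)
    split_ifs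
    · show (if h : Λ σ ∈ f.range ∧ Λ τ ∈ f.range then _ else 0) =
        (if h : Λ σ ∈ f.range ∧ Λ τ ∈ f.range then _ else 0) +
        (if h : Λ σ ∈ f.range ∧ Λ τ ∈ f.range then _ else 0)
      split_ifs
      · rfl
      · rw [add_zero]
    · rw [add_zero]
  have hF1 : F 1 = 0 := by
    have h1 := hF 1 1
    rw [mul_one] at h1
    exact left_eq_add.1 h1
  have hFp : ∀ (χ : π₀.ker →* Multiplicative (ZMod (p ^ m))) (i : ℕ), F (χ ^ i) = i • F χ := by
    intro χ i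
    induction i with
    | zero => rw [pow_zero, zero_smul, hF1]
    | succ i ih => rw [pow_succ, hF, ih, succ_nsmul]
  have hFt : ∀ χ, ∃ a : ZMod (p ^ m), ZMod.toAddCircle a = F χ := by
    intro χ
    apply tor_circ
    rw [← hFp]
    have h1 : χ ^ p ^ m = 1 := MonoidHom.ext fun a => by
      rw [MonoidHom.pow_apply, ← map_pow, hCm, map_one, MonoidHom.one_apply]
    rw [h1, hF1]
  choose F' hF' using hFt
  obtain ⟨ρ₀, hρ₀⟩ := ddu (C := π₀.ker) hn0 hCm (MonoidHom.mk'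
    (fun χ => Multiplicative.ofAdd (F' χ)) fun χ χ' => by
      rw [← ofAdd_add]
      congr 1
      apply ZMod.toAddCircle_injective (N := p ^ m)
      rw [hF', hF, map_add, hF', hF'])
  have hρ₁ : ∀ χ : π₀.ker →* Multiplicative (ZMod (p ^ m)),
      F χ = ZMod.toAddCircle (Multiplicative.toAdd (χ ρ₀)) := by
    intro χ
    rw [← hρ₀ χ]
    exact (hF' χ).symm
  -- the word
  obtain ⟨y₀, hy₀⟩ := hq ρ₀.1
  obtain ⟨ρ, hρ⟩ := hT y₀
  have hρf : f (T ρ) = 1 := by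
    rw [hρ, ← hπq, hy₀, MonoidHom.mem_ker.1 ρ₀.2]
    rfl
  -- the words killed by the small local types
  have hkill : ∀ w, f (T w) = 1 → ∀ (S : Type) [Group S] [Finite S], Sml p k M S →
      ∀ lam : Gal(Ω/K) →* S, H38.ML.FT lam → FreeGroup.lift (fun j => lam (dl j)) w = 1 := by
    intro w hw S _ _ hS lam hlam
    obtain ⟨jj, hj⟩ := emb S hS.2.1
    apply hj
    rw [map_one]
    let x : VT (K := K) k M p dl := ⟨fun j => jj (lam (dl j)), jj.comp lam, ft_comp jj hlam,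
      sml_range hS jj lam, fun _ => rfl⟩
    have h1 := congrFun hw x
    have h2 : f (T w) x = FreeGroup.lift x.1 w := rfl
    rw [h2] at h1
    have h3 : jj.comp (FreeGroup.lift (fun j => lam (dl j))) = FreeGroup.lift x.1 :=
      FreeGroup.ext_hom _ _ fun j => by
        rw [MonoidHom.comp_apply, FreeGroup.lift_apply_of, FreeGroup.lift_apply_of]
    have h4 := DFunLike.congr_fun h3 w
    rw [MonoidHom.comp_apply] at h4
    rw [h4]
    exact h1
  refine ⟨ρ, ?_, fun S _ _ hS lam hlam => hkill ρ hρf S hS lam hlam⟩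
  intro H H' _ _ _ _ π e c hπ hc he1 he2 hcm hLH hRH lam hlam x hx
  have hLH' : Lw p k M H' := lw_surj hLH π hπ
  -- the homomorphism of `E`
  obtain ⟨g, hg⟩ := desc T hT (FreeGroup.lift x) fun w hw =>
    tw_law (congrArg Subtype.val hw) hLH _
  have hπg : ∀ w, π (FreeGroup.lift x w) = FreeGroup.lift (fun j => lam (dl j)) w := by
    intro w
    have h1 : π.comp (FreeGroup.lift x) = FreeGroup.lift (fun j => lam (dl j)) :=
      FreeGroup.ext_hom _ _ fun j => by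
        rw [MonoidHom.comp_apply, FreeGroup.lift_apply_of, FreeGroup.lift_apply_of, hx]
    exact DFunLike.congr_fun h1 w
  have hRker : ∀ y, f y = 1 → π (g y) = 1 := by
    intro y hy
    obtain ⟨w, rfl⟩ := hT y
    rw [hg, hπg]
    by_contra hne
    obtain ⟨S, i3, i4, a, hS, ha⟩ := hRH _ hne
    apply ha
    have h1 := hkill w hy S hS (a.comp lam) (ft_comp a hlam)
    have h2 : a.comp (FreeGroup.lift (fun j => lam (dl j))) =
        FreeGroup.lift (fun j => (a.comp lam) (dl j)) := FreeGroup.ext_hom _ _ fun j => by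
      rw [MonoidHom.comp_apply, FreeGroup.lift_apply_of, FreeGroup.lift_apply_of]
      rfl
    have h3 := DFunLike.congr_fun h2 w
    rw [MonoidHom.comp_apply] at h3
    rw [h3]
    exact h1
  have hgN : N ≤ g.ker := by
    rw [hN, Subgroup.commutator_le]
    intro a ha b _
    rw [MonoidHom.mem_ker, map_commutatorElement, commutatorElement_eq_one_iff_mul_comm]
    exact hc _ (hRker a (MonoidHom.mem_ker.1 ha)) _
  obtain ⟨g', hg'⟩ := desc q hq g fun y hy => MonoidHom.mem_ker.1 (hgN ((hqk y).1 hy))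
  obtain ⟨h, hh⟩ := desc π₀ (fun y => ⟨s y, hs y⟩) (π.comp g') fun z hz' => by
    obtain ⟨y, rfl⟩ := hq z
    rw [MonoidHom.comp_apply, hg']
    apply hRker
    rw [← hπq, hz']
    rfl
  have hπs : ∀ y, π (g' (s y)) = h y := fun y => by
    have h1 := hh (s y)
    rw [hs] at h1
    exact h1.symm
  -- the values on `dec v`
  have hval : ∀ σ ∈ dec (K := K) (Q.P v), ∃ hσ : Λ σ ∈ f.range, h ⟨Λ σ, hσ⟩ = lam σ := by
    intro σ hσ
    have hP : IsPGroup p (Λ.prod lam).range := by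
      rintro ⟨_, τ, rfl⟩
      refine ⟨k, Subtype.ext (Prod.ext ?_ ?_)⟩
      · exact congrArg Subtype.val (lw_pow hΛlw ⟨Λ τ, τ, rfl⟩)
      · exact lw_pow hLH' (lam τ)
    obtain ⟨w, hw⟩ := lgen hp hζ hv hd hdl (Λ.prod lam) (gtame_ft_prod _ _ hΛft hlam) hP hσ
    have h1 : (MonoidHom.fst _ _).comp (FreeGroup.lift (fun j => (Λ.prod lam) (dl j))) =
        FreeGroup.lift (fun j => Λ (dl j)) := FreeGroup.ext_hom _ _ fun j => by
      rw [MonoidHom.comp_apply, FreeGroup.lift_apply_of, FreeGroup.lift_apply_of]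
      rfl
    have h2 : (MonoidHom.snd _ _).comp (FreeGroup.lift (fun j => (Λ.prod lam) (dl j))) =
        FreeGroup.lift (fun j => lam (dl j)) := FreeGroup.ext_hom _ _ fun j => by
      rw [MonoidHom.comp_apply, FreeGroup.lift_apply_of, FreeGroup.lift_apply_of]
      rfl
    have h3 : f (T w) = Λ σ := by
      rw [hfT, ← h1, MonoidHom.comp_apply, hw]
      rfl
    have h4 : π (g (T w)) = lam σ := by
      rw [hg, hπg, ← h2, MonoidHom.comp_apply, hw]
      rfl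
    refine ⟨⟨T w, h3⟩, ?_⟩
    have h5 : (⟨Λ σ, ⟨T w, h3⟩⟩ : f.range) = π₀ (q (T w)) := Subtype.ext (by
      rw [hπq]
      exact h3.symm)
    rw [h5, hh, MonoidHom.comp_apply, hg']
    exact h4
  -- the character
  have hg1 : ∀ z : π₀.ker, π (g' z.1) = 1 := fun z => by
    have h1 := hh z.1
    rw [MonoidHom.mem_ker.1 z.2, map_one] at h1
    exact h1.symm
  have hc1 : c 1 = 0 := by
    have h5 := hcm 1 1
    rw [mul_one, map_one, he1, add_zero] at h5
    linear_combination -h5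
  let χ : π₀.ker →* Multiplicative (ZMod (p ^ m)) := MonoidHom.mk'
    (fun z => Multiplicative.ofAdd (c (g' z.1))) fun z z' => by
      rw [← ofAdd_add]
      congr 1
      show c (g' (z.1 * z'.1)) = _
      rw [map_mul, hcm, hg1, he1, add_zero]
  -- the coboundary
  let η : Gal(Ω/K) → ZMod (p ^ m) := fun σ => if hσ : Λ σ ∈ f.range then c (g' (s ⟨Λ σ, hσ⟩)) else 0
  have hid : ∀ σ ∈ dec (K := K) (Q.P v), ∀ τ ∈ dec (K := K) (Q.P v),
      e (lam σ) (lam τ) = Ψ χ σ τ - d1 η σ τ := by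
    intro σ hσ τ hτ
    obtain ⟨h1, h2⟩ := hval σ hσ
    obtain ⟨h3, h4⟩ := hval τ hτ
    obtain ⟨h5, h6⟩ := hval (σ * τ) (mul_mem hσ hτ)
    have e1 : Ψ χ σ τ = c (g' (zz ⟨Λ σ, h1⟩ ⟨Λ τ, h3⟩).1) := by
      show (if h : Λ σ ∈ f.range ∧ Λ τ ∈ f.range then
        Multiplicative.toAdd (χ (zz ⟨Λ σ, h.1⟩ ⟨Λ τ, h.2⟩)) else 0) = _
      rw [dif_pos ⟨h1, h3⟩]
      rfl
    have e2 : η σ = c (g' (s ⟨Λ σ, h1⟩)) := by
      show (if hσ : Λ σ ∈ f.range then c (g' (s ⟨Λ σ, hσ⟩)) else 0) = _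
      rw [dif_pos h1]
    have e3 : η τ = c (g' (s ⟨Λ τ, h3⟩)) := by
      show (if hσ : Λ τ ∈ f.range then c (g' (s ⟨Λ τ, hσ⟩)) else 0) = _
      rw [dif_pos h3]
    have e4 : η (σ * τ) = c (g' (s (⟨Λ σ, h1⟩ * ⟨Λ τ, h3⟩))) := by
      show (if hσ : Λ (σ * τ) ∈ f.range then c (g' (s ⟨Λ (σ * τ), hσ⟩)) else 0) = _
      rw [dif_pos h5]
      have e5 : (⟨Λ (σ * τ), h5⟩ : f.range) = ⟨Λ σ, h1⟩ * ⟨Λ τ, h3⟩ :=
        Subtype.ext (map_mul Λ σ τ)
      rw [e5]
    have e6 : g' (s ⟨Λ σ, h1⟩) * g' (s ⟨Λ τ, h3⟩) =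
        g' (zz ⟨Λ σ, h1⟩ ⟨Λ τ, h3⟩).1 * g' (s (⟨Λ σ, h1⟩ * ⟨Λ τ, h3⟩)) := by
      rw [← map_mul, ← map_mul]
      congr 1
      show _ = s ⟨Λ σ, h1⟩ * s ⟨Λ τ, h3⟩ * (s (⟨Λ σ, h1⟩ * ⟨Λ τ, h3⟩))⁻¹ * _
      rw [inv_mul_cancel_right]
    have e7 := hcm (g' (s ⟨Λ σ, h1⟩)) (g' (s ⟨Λ τ, h3⟩))
    have e8 := hcm (g' (zz ⟨Λ σ, h1⟩ ⟨Λ τ, h3⟩).1) (g' (s (⟨Λ σ, h1⟩ * ⟨Λ τ, h3⟩)))
    rw [hg1, he1, add_zero] at e8
    rw [hπs, hπs, h2, h4, e6, e8] at e7
    unfold d1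
    rw [e1, e2, e3, e4]
    linear_combination -e7
  have hft : Lev η := by
    obtain ⟨E₁, hE₁, hk⟩ := hΛft
    refine ⟨E₁, hE₁, fun σ u hu => ?_⟩
    have h5 : Λ (σ * u) = Λ σ := by rw [map_mul, MonoidHom.mem_ker.1 (hk hu), mul_one]
    show (if hσ : Λ (σ * u) ∈ f.range then c (g' (s ⟨Λ (σ * u), hσ⟩)) else 0) =
      (if hσ : Λ σ ∈ f.range then c (g' (s ⟨Λ σ, hσ⟩)) else 0)
    simp only [h5]
  have h4 := hI 0 (fun v' σ => if v' = v then η σ else 0) (by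
      refine ⟨PUnit, inferInstance, inferInstance, 1, fun _ _ => 0, fun _ _ _ _ => rfl, ?_,
        fun _ => rfl, fun _ => rfl, fun _ _ => rfl⟩
      exact ⟨⊥, inferInstance, fun σ _ => by rw [MonoidHom.mem_ker, MonoidHom.one_apply]⟩)
    (fun σ τ υ => by
      show (0 : ZMod (p ^ m)) - 0 + 0 - 0 = 0
      ring) (fun v' => by
      obtain ⟨E₁, hE₁, hk⟩ := hft
      exact ⟨E₁, hE₁, fun σ u hu => by simp only [hk σ u hu]⟩)
  rw [ts1_zero, map_zero] at h4
  have h5 : (rs D Q fun v' σ τ => if v' = v then e (lam σ) (lam τ) else 0) =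
      rs D Q (AT (Ψ χ) + fun v' σ τ => (0 : Gal(Ω/K) → Gal(Ω/K) → ZMod (p ^ m)) σ τ -
        d1 (fun σ : Gal(Ω/K) => if v' = v then η σ else 0) σ τ) := by
    funext v' σ τ
    unfold rs
    by_cases hd' : v' ∈ D.S0 ∧ σ ∈ dec (K := K) (Q.P v') ∧ τ ∈ dec (K := K) (Q.P v')
    · rw [if_pos hd', if_pos hd']
      show _ = (if v' = v then Ψ χ σ τ else 0) + ((0 : ZMod (p ^ m)) -
        d1 (fun σ : Gal(Ω/K) => if v' = v then η σ else 0) σ τ)
      by_cases hvv : v' = v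
      · subst hvv
        simp only [if_true]
        rw [hid σ hd'.2.1 τ hd'.2.2]
        ring
      · simp only [if_neg hvv]
        unfold d1
        ring
    · rw [if_neg hd', if_neg hd']
  rw [h5, hIadd, h4, add_zero]
  show F χ = _
  rw [hρ₁]
  congr 1
  show c (g' ρ₀.1) = _
  rw [← hy₀, hg', ← hρ, hg]

end H77.S3
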