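import Pool.Agent.H77.S3.Cex
import Mathlib.Analysis.Complex.Polynomial.Basic

/-!
# [H77 S3 DDU] double duality (GT5)

`ddu`: `C` a finite abelian group of exponent dividing `n`: every homomorphism from `Hom(C, ZMod n)` to `ZMod n` is the evaluation at an element of `C`.
-/

set_option autoImplicit false
set_option linter.dupNamespace false

open scoped Classical

noncomputable section

namespace H77.S3

theorem card_hom {A : Type} [CommGroup A] [Finite A] {n : ℕ} (hn : n ≠ 0)
    (ha : ∀ a : A, a ^ n = 1) : Nat.card (A →* Multiplicative (ZMod n)) = Nat.card A := by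
  have : NeZero n := ⟨hn⟩
  obtain ⟨ζ, hζ⟩ := HasEnoughRootsOfUnity.exists_primitiveRoot ℂ n
  obtain ⟨u, hu⟩ := hζ.isUnit hn
  have hu' : IsPrimitiveRoot u n := IsPrimitiveRoot.coe_units_iff.1 (by rw [hu]; exact hζ)
  let e := hu'.zmodEquivZPowers
  let i : Multiplicative (ZMod n) →* ℂˣ :=
    (Subgroup.zpowers u).subtype.comp (AddMonoidHom.toMultiplicativeLeft e.toAddMonoidHom)
  have hi : Function.Injective i := by
    intro a b h
    have h1 : e (Multiplicative.toAdd a) = e (Multiplicative.toAdd b) := Subtype.ext h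
    exact Multiplicative.toAdd.injective (e.injective h1)
  have hr : ∀ x : ℂˣ, x ^ n = 1 → ∃ a, i a = x := by
    intro x hx
    have h1 : x ∈ Subgroup.zpowers u := by
      rw [hu'.zpowers_eq, mem_rootsOfUnity]
      exact hx
    refine ⟨Multiplicative.ofAdd (e.symm (Additive.ofMul ⟨x, h1⟩)), ?_⟩
    show ((Additive.toMul (e (e.symm (Additive.ofMul (⟨x, h1⟩ : Subgroup.zpowers u))))) :
      Subgroup.zpowers u).1 = x
    rw [AddEquiv.apply_symm_apply]
    rfl
  have h1 : Nat.card (A →* ℂˣ) = Nat.card A := by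
    have h2 : Monoid.exponent A ∣ n := Monoid.exponent_dvd_of_forall_pow_eq_one ha
    have h3 : HasEnoughRootsOfUnity ℂ (Monoid.exponent A) := HasEnoughRootsOfUnity.of_dvd ℂ h2
    exact CommGroup.card_monoidHom_of_hasEnoughRootsOfUnity A ℂ
  rw [← h1]
  refine Nat.card_congr (Equiv.ofBijective (fun f => i.comp f) ⟨fun f g h => ?_, fun g => ?_⟩)
  · refine MonoidHom.ext fun a => hi ?_
    exact DFunLike.congr_fun h a
  · choose f hf using fun a => hr (g a) (by rw [← map_pow, ha, map_one])
    refine ⟨MonoidHom.mk' f fun a b => hi ?_, MonoidHom.ext fun a => hf a⟩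
    rw [map_mul, hf, hf, hf, map_mul]

theorem ddu {C : Type} [CommGroup C] [Finite C] {n : ℕ} (hn : n ≠ 0) (hc : ∀ a : C, a ^ n = 1)
    (F : (C →* Multiplicative (ZMod n)) →* Multiplicative (ZMod n)) : ∃ ρ : C, ∀ χ, F χ = χ ρ := by
  have : NeZero n := ⟨hn⟩
  have hf : Finite (Multiplicative (ZMod n)) := inferInstanceAs (Finite (ZMod n))
  have hX : ∀ χ : C →* Multiplicative (ZMod n), χ ^ n = 1 := by
    intro χ
    refine MonoidHom.ext fun a => ?_
    rw [MonoidHom.pow_apply, ← map_pow, hc, map_one, MonoidHom.one_apply]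
  have hXf : Finite (C →* Multiplicative (ZMod n)) :=
    Finite.of_injective (fun χ : C →* Multiplicative (ZMod n) => (χ : C → _)) DFunLike.coe_injective
  have hXXf : Finite ((C →* Multiplicative (ZMod n)) →* Multiplicative (ZMod n)) :=
    Finite.of_injective (fun χ : (C →* Multiplicative (ZMod n)) →* Multiplicative (ZMod n) =>
      (χ : _ → _)) DFunLike.coe_injective
  have h1 := card_hom hn hX
  rw [card_hom hn hc] at h1
  let ev : C → ((C →* Multiplicative (ZMod n)) →* Multiplicative (ZMod n)) := fun a =>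
    { toFun := fun χ => χ a
      map_one' := rfl
      map_mul' := fun _ _ => rfl }
  have hev : Function.Injective ev := by
    intro a b h
    by_contra hne
    obtain ⟨ψ, hψ⟩ := sep_ch hn hc (w := a * b⁻¹) fun h' => hne (mul_inv_eq_one.1 h')
    apply hψ
    have h2 : ψ a = ψ b := DFunLike.congr_fun h ψ
    rw [map_mul, map_inv, h2, mul_inv_cancel]
  have hbij := (Nat.bijective_iff_injective_and_card ev).2 ⟨hev, h1.symm⟩
  obtain ⟨ρ, hρ⟩ := hbij.2 F
  exact ⟨ρ, fun χ => (DFunLike.congr_fun hρ χ).symm⟩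

end H77.S3
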