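import Mathlib

/-!
# [H77 S3 ABS] absorption

`abs`: `G` nilpotent, `R` normal, generated by `u i`, `i ∈ L` (a list without repetitions); if `∏ [u i, X i]` is in `[R, G]`, then there are `X' i ∈ X i R` with `∏ [u i, X' i] = 1`.
-/

set_option autoImplicit false
set_option linter.dupNamespace false

open scoped Classical commutatorElement

noncomputable section

namespace H77.S3

section Cen

variable {Q : Type*} [Group Q] {N : Subgroup Q}

theorem cen_left (h : ∀ n ∈ N, ∀ g x : Q, ⁅n, g⁆ * x = x * ⁅n, g⁆) {n : Q} (hn : n ∈ N)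
    (g x : Q) : ⁅g, n⁆ * x = x * ⁅g, n⁆ := by
  have h1 : ⁅g, n⁆ = ⁅n, g⁆⁻¹ := (commutatorElement_inv n g).symm
  rw [h1]
  have h2 := h n hn g x
  calc ⁅n, g⁆⁻¹ * x = ⁅n, g⁆⁻¹ * (x * ⁅n, g⁆) * ⁅n, g⁆⁻¹ := by group
    _ = ⁅n, g⁆⁻¹ * (⁅n, g⁆ * x) * ⁅n, g⁆⁻¹ := by rw [h2]
    _ = x * ⁅n, g⁆⁻¹ := by group

theorem br_mul (h : ∀ n ∈ N, ∀ g x : Q, ⁅n, g⁆ * x = x * ⁅n, g⁆) {r : Q} (hr : r ∈ N)
    (u X : Q) : ⁅u, X * r⁆ = ⁅u, X⁆ * ⁅u, r⁆ := by
  have h2 := cen_left h hr u X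
  have h1 : ⁅u, X * r⁆ = ⁅u, X⁆ * (X * ⁅u, r⁆ * X⁻¹) := by
    simp only [commutatorElement_def]
    group
  rw [h1, ← h2]
  group

theorem br_gmul (h : ∀ n ∈ N, ∀ g x : Q, ⁅n, g⁆ * x = x * ⁅n, g⁆) {n : Q} (hn : n ∈ N)
    (g g' : Q) : ⁅n, g * g'⁆ = ⁅n, g⁆ * ⁅n, g'⁆ := by
  have h2 := h n hn g' g
  have h1 : ⁅n, g * g'⁆ = ⁅n, g⁆ * (g * ⁅n, g'⁆ * g⁻¹) := by
    simp only [commutatorElement_def]
    group
  rw [h1, ← h2]
  group

theorem pr_split {ι : Type*} (h : ∀ n ∈ N, ∀ g x : Q, ⁅n, g⁆ * x = x * ⁅n, g⁆) (u : ι → Q)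
    (X r : ι → Q) (hr : ∀ i, r i ∈ N) (L : List ι) :
    (L.map fun i => ⁅u i, X i * r i⁆).prod
      = (L.map fun i => ⁅u i, X i⁆).prod * (L.map fun i => ⁅u i, r i⁆).prod := by
  induction L with
  | nil => simp
  | cons a L ih =>
    rw [List.map_cons, List.prod_cons, List.map_cons, List.prod_cons, List.map_cons,
      List.prod_cons, ih, br_mul h (hr a)]
    have h2 := cen_left h (hr a) (u a) (L.map fun i => ⁅u i, X i⁆).prod
    simp only [mul_assoc]
    congr 1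
    rw [← mul_assoc, h2, mul_assoc]

/-- every element of `[N, Q]` is a product of `[u i, r i]`, if `[N, Q]` is central -/
theorem sur_cen {ι : Type*} (h : ∀ n ∈ N, ∀ g x : Q, ⁅n, g⁆ * x = x * ⁅n, g⁆) (u : ι → Q)
    {L : List ι} (hL : L.Nodup) (hu : Subgroup.closure {x | ∃ i ∈ L, u i = x} = ⊤) {w : Q}
    (hw : w ∈ ⁅N, (⊤ : Subgroup Q)⁆) :
    ∃ r : ι → Q, (∀ i, r i ∈ N) ∧ (L.map fun i => ⁅u i, r i⁆).prod = w := by
  have hone : ∀ w : Q, w = 1 → ∃ r : ι → Q, (∀ i, r i ∈ N) ∧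
      (L.map fun i => ⁅u i, r i⁆).prod = w := by
    rintro w rfl
    refine ⟨fun _ => 1, fun _ => N.one_mem, ?_⟩
    apply List.prod_eq_one
    intro x hx
    obtain ⟨i, _, rfl⟩ := List.mem_map.1 hx
    exact commutatorElement_one_right (u i)
  have hmul : ∀ w w' : Q, (∃ r : ι → Q, (∀ i, r i ∈ N) ∧ (L.map fun i => ⁅u i, r i⁆).prod = w) →
      (∃ r : ι → Q, (∀ i, r i ∈ N) ∧ (L.map fun i => ⁅u i, r i⁆).prod = w') →
      ∃ r : ι → Q, (∀ i, r i ∈ N) ∧ (L.map fun i => ⁅u i, r i⁆).prod = w * w' := by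
    rintro w w' ⟨r, hr, h1⟩ ⟨r', hr', h2⟩
    refine ⟨fun i => r i * r' i, fun i => N.mul_mem (hr i) (hr' i), ?_⟩
    rw [pr_split h u r r' hr' L, h1, h2]
  have hinv : ∀ w : Q, (∃ r : ι → Q, (∀ i, r i ∈ N) ∧ (L.map fun i => ⁅u i, r i⁆).prod = w) →
      ∃ r : ι → Q, (∀ i, r i ∈ N) ∧ (L.map fun i => ⁅u i, r i⁆).prod = w⁻¹ := by
    rintro w ⟨r, hr, h1⟩
    refine ⟨fun i => (r i)⁻¹, fun i => N.inv_mem (hr i), ?_⟩
    have h2 := pr_split h u r (fun i => (r i)⁻¹) (fun i => N.inv_mem (hr i)) L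
    rw [h1] at h2
    have h3 : (L.map fun i => ⁅u i, r i * (r i)⁻¹⁆).prod = 1 := by
      apply List.prod_eq_one
      intro x hx
      obtain ⟨i, _, rfl⟩ := List.mem_map.1 hx
      rw [mul_inv_cancel]
      exact commutatorElement_one_right (u i)
    rw [h3] at h2
    exact (inv_eq_of_mul_eq_one_right h2.symm).symm
  have key : ∀ g : Q, ∀ n ∈ N, ∃ r : ι → Q, (∀ i, r i ∈ N) ∧
      (L.map fun i => ⁅u i, r i⁆).prod = ⁅n, g⁆ := by
    intro g
    have hg : g ∈ Subgroup.closure {x | ∃ i ∈ L, u i = x} := by rw [hu]; trivial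
    induction hg using Subgroup.closure_induction with
    | mem x hx =>
      obtain ⟨i, hi, rfl⟩ := hx
      intro n hn
      refine ⟨fun j => if j = i then n⁻¹ else 1, fun j => ?_, ?_⟩
      · show (if j = i then n⁻¹ else 1) ∈ N
        split_ifs
        · exact N.inv_mem hn
        · exact N.one_mem
      · have h1 : ∀ M : List ι, M.Nodup → (M.map fun j => ⁅u j, if j = i then n⁻¹ else 1⁆).prod
            = if i ∈ M then ⁅u i, n⁻¹⁆ else 1 := by
          intro M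
          induction M with
          | nil => intro _; simp
          | cons a M ih =>
            intro hM
            rw [List.map_cons, List.prod_cons, ih (List.nodup_cons.1 hM).2]
            by_cases ha : a = i
            · subst ha
              rw [if_pos rfl, if_neg (List.nodup_cons.1 hM).1, if_pos List.mem_cons_self, mul_one]
            · rw [if_neg ha, commutatorElement_one_right, one_mul]
              by_cases hi : i ∈ M
              · rw [if_pos hi, if_pos (List.mem_cons_of_mem _ hi)]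
              · rw [if_neg hi, if_neg]
                intro h5
                rcases List.mem_cons.1 h5 with h6 | h6
                · exact ha h6.symm
                · exact hi h6
        rw [h1 L hL, if_pos hi]
        have h2 : ⁅u i, n⁻¹⁆ * ⁅u i, n⁆ = 1 := by
          rw [← br_mul h hn (u i) n⁻¹, inv_mul_cancel, commutatorElement_one_right]
        have h3 : ⁅n, u i⁆ = ⁅u i, n⁆⁻¹ := (commutatorElement_inv (u i) n).symm
        rw [h3]
        exact eq_inv_of_mul_eq_one_left h2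
    | one => 
      intro n hn
      exact hone _ (commutatorElement_one_right n)
    | mul x y _ _ hx hy =>
      intro n hn
      rw [br_gmul h hn]
      exact hmul _ _ (hx n hn) (hy n hn)
    | inv x _ hx =>
      intro n hn
      have h1 : ⁅n, x⁻¹⁆ = ⁅n, x⁆⁻¹ := by
        have h2 : ⁅n, x⁆ * ⁅n, x⁻¹⁆ = 1 := by
          rw [← br_gmul h hn, mul_inv_cancel, commutatorElement_one_right]
        exact (inv_eq_of_mul_eq_one_right h2).symm
      rw [h1]
      exact hinv _ (hx n hn)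
  rw [Subgroup.commutator_def] at hw
  induction hw using Subgroup.closure_induction with
  | mem x hx =>
    obtain ⟨n, hn, g, _, rfl⟩ := hx
    exact key g n hn
  | one => exact hone _ rfl
  | mul x y _ _ hx hy => exact hmul _ _ hx hy
  | inv x _ hx => exact hinv _ hx

end Cen

variable {G : Type*} [Group G]

/-- the descending series `R, [R, G], [[R, G], G], ..` -/
def dn (R : Subgroup G) : ℕ → Subgroup G
  | 0 => R
  | j + 1 => ⁅dn R j, (⊤ : Subgroup G)⁆

instance dn_normal (R : Subgroup G) [R.Normal] : ∀ j, (dn R j).Normal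
  | 0 => by unfold dn; infer_instance
  | j + 1 => by
    unfold dn
    have := dn_normal R j
    infer_instance

theorem dn_le (R : Subgroup G) [R.Normal] (j : ℕ) : dn R j ≤ R := by
  induction j with
  | zero => exact le_refl _
  | succ j ih => exact (Subgroup.commutator_le_left (dn R j) ⊤).trans ih

theorem dn_lcs (R : Subgroup G) (j : ℕ) : dn R j ≤ (⊤ : Subgroup G).lowerCentralSeries j := by
  induction j with
  | zero => exact le_top
  | succ j ih => exact Subgroup.commutator_mono ih (le_refl _)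

/-- one step -/
theorem abs_step {ι : Type*} (N : Subgroup G) [N.Normal] (u : ι → G) {L : List ι}
    (hL : L.Nodup) (hu : Subgroup.closure {x | ∃ i ∈ L, u i = x} = ⊤) (X : ι → G)
    (hw : (L.map fun i => ⁅u i, X i⁆).prod ∈ ⁅N, (⊤ : Subgroup G)⁆) :
    ∃ r : ι → G, (∀ i, r i ∈ N) ∧
      (L.map fun i => ⁅u i, X i * r i⁆).prod ∈ ⁅⁅N, (⊤ : Subgroup G)⁆, (⊤ : Subgroup G)⁆ := by
  set M : Subgroup G := ⁅⁅N, (⊤ : Subgroup G)⁆, (⊤ : Subgroup G)⁆ with hM
  let f : G →* G ⧸ M := QuotientGroup.mk' M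
  have hf : Function.Surjective f := QuotientGroup.mk'_surjective M
  have hfk : ∀ x : G, f x = 1 ↔ x ∈ M := fun x => by
    rw [← MonoidHom.mem_ker]
    rw [QuotientGroup.ker_mk']
  have hc : ∀ n ∈ N.map f, ∀ g x : G ⧸ M, ⁅n, g⁆ * x = x * ⁅n, g⁆ := by
    rintro _ ⟨n, hn, rfl⟩ g x
    obtain ⟨g, rfl⟩ := hf g
    obtain ⟨x, rfl⟩ := hf x
    have h1 : ⁅⁅n, g⁆, x⁆ ∈ M :=
      Subgroup.commutator_mem_commutator (Subgroup.commutator_mem_commutator hn trivial) trivial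
    have h2 := (hfk _).2 h1
    rw [map_commutatorElement, map_commutatorElement] at h2
    exact commutatorElement_eq_one_iff_mul_comm.1 h2
  have hu' : Subgroup.closure {x | ∃ i ∈ L, f (u i) = x} = ⊤ := by
    have h1 : {x | ∃ i ∈ L, f (u i) = x} = f '' {x | ∃ i ∈ L, u i = x} := by
      ext x
      constructor
      · rintro ⟨i, hi, rfl⟩
        exact ⟨u i, ⟨i, hi, rfl⟩, rfl⟩
      · rintro ⟨_, ⟨i, hi, rfl⟩, rfl⟩
        exact ⟨i, hi, rfl⟩
    rw [h1, ← MonoidHom.map_closure, hu, ← MonoidHom.range_eq_map,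
      MonoidHom.range_eq_top.2 hf]
  have hw' : (f (L.map fun i => ⁅u i, X i⁆).prod)⁻¹ ∈ ⁅N.map f, (⊤ : Subgroup (G ⧸ M))⁆ := by
    have h1 := Subgroup.mem_map_of_mem f hw
    rw [Subgroup.map_commutator, ← MonoidHom.range_eq_map, MonoidHom.range_eq_top.2 hf] at h1
    exact Subgroup.inv_mem _ h1
  obtain ⟨r, hr, h1⟩ := sur_cen hc (fun i => f (u i)) hL hu' hw'
  choose s hs hs2 using fun i => hr i
  refine ⟨s, hs, ?_⟩
  rw [← hfk, map_list_prod, List.map_map]
  have h2 := pr_split hc (fun i => f (u i)) (fun i => f (X i)) r hr L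
  have h3 : (L.map (f ∘ fun i => ⁅u i, X i * s i⁆)) = L.map fun i => ⁅f (u i), f (X i) * r i⁆ := by
    apply List.map_congr_left
    intro i _
    show f ⁅u i, X i * s i⁆ = _
    rw [map_commutatorElement, map_mul, hs2]
  rw [h3, h2, h1, map_list_prod, List.map_map]
  have h4 : (L.map (f ∘ fun i => ⁅u i, X i⁆)) = L.map fun i => ⁅f (u i), f (X i)⁆ := by
    apply List.map_congr_left
    intro i _
    show f ⁅u i, X i⁆ = _
    rw [map_commutatorElement]
  rw [h4, mul_inv_cancel]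

theorem abs_aux {ι : Type*} (R : Subgroup G) [R.Normal] (u : ι → G) {L : List ι}
    (hL : L.Nodup) (hu : Subgroup.closure {x | ∃ i ∈ L, u i = x} = ⊤) (X : ι → G)
    (hw : (L.map fun i => ⁅u i, X i⁆).prod ∈ ⁅R, (⊤ : Subgroup G)⁆) (j : ℕ) :
    ∃ X' : ι → G, (∀ i, (X i)⁻¹ * X' i ∈ R) ∧
      (L.map fun i => ⁅u i, X' i⁆).prod ∈ dn R (j + 1) := by
  induction j with
  | zero => 
    refine ⟨X, fun i => by rw [inv_mul_cancel]; exact R.one_mem, ?_⟩
    exact hw
  | succ j ih =>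
    obtain ⟨X', hX', h1⟩ := ih
    obtain ⟨r, hr, h2⟩ := abs_step (dn R j) u hL hu X' h1
    refine ⟨fun i => X' i * r i, fun i => ?_, h2⟩
    rw [← mul_assoc]
    exact R.mul_mem (hX' i) (dn_le R j (hr i))

/-- **absorption** -/
theorem abs {ι : Type*} [Group.IsNilpotent G] (R : Subgroup G) [R.Normal] (u : ι → G) {L : List ι}
    (hL : L.Nodup) (hu : Subgroup.closure {x | ∃ i ∈ L, u i = x} = ⊤) (X : ι → G)
    (hw : (L.map fun i => ⁅u i, X i⁆).prod ∈ ⁅R, (⊤ : Subgroup G)⁆) :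
    ∃ X' : ι → G, (∀ i, (X i)⁻¹ * X' i ∈ R) ∧ (L.map fun i => ⁅u i, X' i⁆).prod = 1 := by
  obtain ⟨n, hn⟩ := Subgroup.nilpotent_iff_lowerCentralSeries.1 (inferInstance : Group.IsNilpotent G)
  obtain ⟨X', hX', h1⟩ := abs_aux R u hL hu X hw n
  refine ⟨X', hX', ?_⟩
  have h2 := dn_lcs R (n + 1) h1
  have h3 : (⊤ : Subgroup G).lowerCentralSeries (n + 1) ≤ ⊥ := by
    rw [← hn]
    exact (⊤ : Subgroup G).lowerCentralSeries_antitone (Nat.le_succ n)
  exact Subgroup.mem_bot.1 (h3 h2)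

end H77.S3
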