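import Mathlib

/-!
# [H77 S3 CEX] characters of a central kernel as coordinates

* `sep_ch`: characters with values in `ZMod n` separate the points of a finite abelian group of exponent dividing `n`.
* `cex`: `π : H → H'` with central kernel of exponent dividing `n`, `w ≠ 1` in the kernel: there is a normalised cocycle `e` and a coordinate `c` with `c w ≠ 0`.
-/

set_option autoImplicit false
set_option linter.dupNamespace false

open scoped Classical

noncomputable section

namespace H77.S3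

theorem zm_emb {d n : ℕ} (hn : n ≠ 0) (h : d ∣ n) : ∃ f : ZMod d →+ ZMod n,
    Function.Injective f := by
  obtain ⟨k, rfl⟩ := h
  have hd : d ≠ 0 := fun h => hn (by rw [h, zero_mul])
  have hk : k ≠ 0 := fun h => hn (by rw [h, mul_zero])
  have h0 : (zmultiplesHom (ZMod (d * k)) (k : ZMod (d * k))) (d : ℤ) = 0 := by
    rw [zmultiplesHom_apply, natCast_zsmul, nsmul_eq_mul, ← Nat.cast_mul, ZMod.natCast_self]
  refine ⟨ZMod.lift d ⟨zmultiplesHom (ZMod (d * k)) (k : ZMod (d * k)), h0⟩, ?_⟩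
  rw [ZMod.lift_injective]
  intro z hz
  change (zmultiplesHom (ZMod (d * k)) (k : ZMod (d * k))) z = 0 at hz
  rw [zmultiplesHom_apply, zsmul_eq_mul, ← Int.cast_natCast k, ← Int.cast_mul,
    ZMod.intCast_zmod_eq_zero_iff_dvd, Nat.cast_mul] at hz
  rw [ZMod.intCast_zmod_eq_zero_iff_dvd]
  exact Int.dvd_of_mul_dvd_mul_right (by exact_mod_cast hk) hz

theorem sep_ch {A : Type} [CommGroup A] [Finite A] {n : ℕ} (hn : n ≠ 0) (ha : ∀ a : A, a ^ n = 1)
    {w : A} (hw : w ≠ 1) : ∃ ψ : A →* Multiplicative (ZMod n), ψ w ≠ 1 := by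
  obtain ⟨ι, i1, m, hm, ⟨f⟩⟩ := CommGroup.equiv_prod_multiplicative_zmod_of_finite A
  have h1 : f w ≠ 1 := fun h => hw (f.injective (by rw [h, map_one]))
  obtain ⟨i, hi⟩ : ∃ i, f w i ≠ 1 := by
    by_contra h
    push Not at h
    exact h1 (funext h)
  have h2 : m i ∣ n := by
    have h3 := ha (f.symm (Pi.mulSingle i (Multiplicative.ofAdd (1 : ZMod (m i)))))
    rw [← map_pow, ← map_one f.symm] at h3
    have h4 := congrFun (f.symm.injective h3) i
    rw [Pi.pow_apply, Pi.mulSingle_eq_same, ← ofAdd_nsmul, nsmul_one] at h4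
    exact (ZMod.natCast_eq_zero_iff n (m i)).1 (Multiplicative.ofAdd.injective h4)
  obtain ⟨g, hg⟩ := zm_emb hn h2
  refine ⟨(AddMonoidHom.toMultiplicative g).comp ((Pi.evalMonoidHom _ i).comp f.toMonoidHom),
    fun h => hi ?_⟩
  have h5 : g (Multiplicative.toAdd (f w i)) = 0 := congrArg Multiplicative.toAdd h
  have h6 : Multiplicative.toAdd (f w i) = 0 := hg (by rw [h5, map_zero])
  exact Multiplicative.toAdd.injective h6

theorem cex {H H' : Type} [Group H] [Finite H] [Group H'] (π : H →* H')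
    (hπ : Function.Surjective π) (hc : ∀ z, π z = 1 → ∀ h, z * h = h * z) {n : ℕ} (hn : n ≠ 0)
    (hk : ∀ z, π z = 1 → z ^ n = 1) {w : H} (hw : π w = 1) (hw1 : w ≠ 1) :
    ∃ (e : H' → H' → ZMod n) (c : H → ZMod n), (∀ x, e 1 x = 0) ∧ (∀ x, e x 1 = 0) ∧
      (∀ x y, c (x * y) = c x + c y + e (π x) (π y)) ∧ c w ≠ 0 := by
  letI : CommGroup π.ker := { (inferInstance : Group π.ker) with
    mul_comm := fun a b => Subtype.ext (hc a.1 a.2 b.1) }
  obtain ⟨ψ, hψ⟩ := sep_ch (A := π.ker) hn (fun a => Subtype.ext (hk a.1 a.2)) (w := ⟨w, hw⟩)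
    fun h => hw1 (congrArg Subtype.val h)
  have hs : ∀ x : H', ∃ h : H, π h = x ∧ (x = 1 → h = 1) := by
    intro x
    by_cases hx : x = 1
    · exact ⟨1, by rw [map_one, hx], fun _ => rfl⟩
    · obtain ⟨h, hh⟩ := hπ x
      exact ⟨h, hh, fun h' => absurd h' hx⟩
  choose s hs1 hs2 using hs
  have hmem : ∀ h : H, h * (s (π h))⁻¹ ∈ π.ker := fun h => by
    rw [MonoidHom.mem_ker, map_mul, map_inv, hs1, mul_inv_cancel]
  let c : H → ZMod n := fun h => Multiplicative.toAdd (ψ ⟨h * (s (π h))⁻¹, hmem h⟩)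
  have hcz : ∀ (z h : H) (hz : π z = 1), c (z * h) = Multiplicative.toAdd (ψ ⟨z, hz⟩) + c h := by
    intro z h hz
    change Multiplicative.toAdd (ψ _) = Multiplicative.toAdd (ψ _) + Multiplicative.toAdd (ψ _)
    rw [← toAdd_mul, ← map_mul]
    congr 2
    apply Subtype.ext
    change z * h * (s (π (z * h)))⁻¹ = z * (h * (s (π h))⁻¹)
    rw [map_mul, hz, one_mul, mul_assoc]
  have hcs : ∀ x, c (s x) = 0 := by
    intro x
    change Multiplicative.toAdd (ψ _) = 0
    have h1 : (⟨s x * (s (π (s x)))⁻¹, hmem (s x)⟩ : π.ker) = 1 := by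
      apply Subtype.ext
      change s x * (s (π (s x)))⁻¹ = 1
      rw [hs1, mul_inv_cancel]
    rw [h1, map_one]
    rfl
  have hdec : ∀ h : H, ∃ (z : H) (hz : π z = 1), h = z * s (π h) ∧
      c h = Multiplicative.toAdd (ψ ⟨z, hz⟩) := fun h =>
    ⟨h * (s (π h))⁻¹, hmem h, by group, rfl⟩
  refine ⟨fun x y => c (s x * s y), c, fun x => ?_, fun x => ?_, fun x y => ?_, ?_⟩
  · change c (s 1 * s x) = 0
    rw [hs2 1 rfl, one_mul, hcs]
  · change c (s x * s 1) = 0
    rw [hs2 1 rfl, mul_one, hcs]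
  · obtain ⟨z, hz, h1, h2⟩ := hdec x
    obtain ⟨z', hz', h3, h4⟩ := hdec y
    have h5 : x * y = z * (z' * (s (π x) * s (π y))) := by
      conv_lhs => rw [h1, h3]
      calc z * s (π x) * (z' * s (π y)) = z * (s (π x) * z') * s (π y) := by group
        _ = z * (z' * s (π x)) * s (π y) := by rw [hc z' hz' (s (π x))]
        _ = _ := by group
    change c (x * y) = c x + c y + c (s (π x) * s (π y))
    rw [h5, hcz z _ hz, hcz z' _ hz', h2, h4, add_assoc]
  · intro h
    apply hψ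
    have h1 : c w = Multiplicative.toAdd (ψ ⟨w, hw⟩) := by
      have h2 := hcz w 1 hw
      have h3 : c 1 = 0 := by
        have h4 := hcs 1
        rwa [hs2 1 rfl] at h4
      rwa [mul_one, h3, add_zero] at h2
    rw [h1] at h
    exact Multiplicative.toAdd.injective h

end H77.S3
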