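import Pool.Agent.H77.S3.Blk
import Pool.Agent.H77.S3.Cex
import Pool.Agent.H77.S3.Abs

/-!
# [H77 S3 BIG] the universal groups

`IT A k M Z`: the homomorphisms `θ` from the words to `Perm (Fin M)` with small image, trivial at the letters outside `Z`. `Th`: their product. `JT L k M Z`: the honest
homomorphisms to `Perm (Fin M)` with small image, `Ph` their product. `pr`: the projection, `pr (Th w) = hat Ph w`.
-/

set_option autoImplicit false
set_option linter.dupNamespace false

open scoped NumberField commutatorElement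
open IsDedekindDomain
open scoped Classical

noncomputable section

namespace H77.S3

open H63.MA H38.BB H38.BG H57.PC H57.BRA H57.GP H77.WD Pool.Agent.H19.NF
  Pool.Agent.H19.AB Pool.Agent.H19.A2 H77.WE Pool.Agent.H19

/-- laws of products, subgroups, quotients -/
theorem lw_inj {p k M : ℕ} {H S : Type} [Group H] [Group S] (h : Lw p k M S) (f : H →* S)
    (hf : Function.Injective f) : Lw p k M H := by
  intro n w hw g
  apply hf
  rw [map_one]
  exact h n w hw (f.comp g)

theorem lw_surj {p k M : ℕ} {H S : Type} [Group H] [Group S] (h : Lw p k M H) (f : H →* S)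
    (hf : Function.Surjective f) : Lw p k M S := by
  intro n w hw g
  choose s hs using fun i : Fin n => hf (g (FreeGroup.of i))
  have h1 : f.comp (FreeGroup.lift s) = g := FreeGroup.ext_hom _ _ fun i => by
    rw [MonoidHom.comp_apply, FreeGroup.lift_apply_of, hs]
  rw [← h1, MonoidHom.comp_apply, h n w hw, map_one]

theorem lw_pi {p k M : ℕ} {I : Type} {H : I → Type} [∀ i, Group (H i)] {G : Type} [Group G]
    (f : (i : I) → G →* H i) (hf : ∀ i, Sml p k M (f i).range) [∀ i, Finite (H i)] :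
    Lw p k M (MonoidHom.pi f).range := by
  intro n w hw g
  apply Subtype.ext
  funext i
  have h1 : ∀ x : (MonoidHom.pi f).range, x.1 i ∈ (f i).range := by
    rintro ⟨_, y, rfl⟩
    exact ⟨y, rfl⟩
  let q : (MonoidHom.pi f).range →* (f i).range :=
    { toFun := fun x => ⟨x.1 i, h1 x⟩
      map_one' := rfl
      map_mul' := fun _ _ => rfl }
  have h2 := hw _ (hf i) (q.comp g)
  exact congrArg Subtype.val h2

theorem rsm_pi {p k M : ℕ} {I : Type} {H : I → Type} [∀ i, Group (H i)] {G : Type} [Group G]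
    (f : (i : I) → G →* H i) (hf : ∀ i, Sml p k M (f i).range) [∀ i, Finite (H i)] :
    Rsm p k M (MonoidHom.pi f).range := by
  intro x hx
  obtain ⟨i, hi⟩ : ∃ i, x.1 i ≠ 1 := by
    by_contra h
    push Not at h
    exact hx (Subtype.ext (funext h))
  have h1 : ∀ x : (MonoidHom.pi f).range, x.1 i ∈ (f i).range := by
    rintro ⟨_, y, rfl⟩
    exact ⟨y, rfl⟩
  let q : (MonoidHom.pi f).range →* (f i).range :=
    { toFun := fun x => ⟨x.1 i, h1 x⟩
      map_one' := rfl
      map_mul' := fun _ _ => rfl }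
  exact ⟨(f i).range, inferInstance, inferInstance, q, hf i, fun h => hi (congrArg Subtype.val h)⟩

variable {K : Type} [Field K] [NumberField K] {Ω : Type} [Field Ω] [Algebra K Ω]
  {p : ℕ} {ζ : K} {D : RD0 K p ζ}

/-- homomorphisms from the words with small image, trivial outside `Z` -/
def IT (A : GS D Ω) (k M : ℕ) (Z : Finset (Pl K)) : Type :=
  {θ : FW A →* Equiv.Perm (Fin M) // Sml p k M θ.range ∧
    ∀ v, v ∉ Z → θ (FreeGroup.of (Sum.inl v)) = 1}

/-- honest homomorphisms with small image -/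
def JT (L : LDs D Ω) (k M : ℕ) (Z : Finset (Pl K)) : Type :=
  {φ : Gal(Ω/K) →* Equiv.Perm (Fin M) // Sml p k M φ.range ∧ Unz L Z φ}

/-- the universal homomorphism of the words -/
def Th (A : GS D Ω) (k M : ℕ) (Z : Finset (Pl K)) : FW A →* (IT A k M Z → Equiv.Perm (Fin M)) :=
  MonoidHom.pi fun θ => θ.1

/-- the universal honest homomorphism -/
def Ph (L : LDs D Ω) (k M : ℕ) (Z : Finset (Pl K)) :
    Gal(Ω/K) →* (JT L k M Z → Equiv.Perm (Fin M)) :=
  MonoidHom.pi fun φ => φ.1

theorem it_finite (A : GS D Ω) (k M : ℕ) (Z : Finset (Pl K)) : Finite (IT A k M Z) := by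
  refine Finite.of_injective (β := (Z → Equiv.Perm (Fin M)) × (Fin A.g → Equiv.Perm (Fin M)))
    (fun θ => (fun v => θ.1 (FreeGroup.of (Sum.inl v.1)), fun i =>
      θ.1 (FreeGroup.of (Sum.inr i)))) ?_
  intro θ θ' h
  have h1 := congrArg Prod.fst h
  have h2 := congrArg Prod.snd h
  refine Subtype.ext (FreeGroup.ext_hom _ _ fun x => ?_)
  rcases x with v | i
  · by_cases hv : v ∈ Z
    · exact congrFun h1 ⟨v, hv⟩
    · rw [θ.2.2 v hv, θ'.2.2 v hv]
  · exact congrFun h2 i

theorem hat_range (L : LDs D Ω) (A : GS D Ω) {H : Type} [Group H] (φ : Gal(Ω/K) →* H) :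
    (hat L A φ).range ≤ φ.range := by
  unfold hat
  rw [FreeGroup.range_lift_eq_closure, Subgroup.closure_le]
  rintro _ ⟨x, rfl⟩
  rcases x with v | i
  · exact ⟨_, rfl⟩
  · exact ⟨_, rfl⟩

theorem hat_off {L : LDs D Ω} (A : GS D Ω) {Z : Finset (Pl K)} {H : Type} [Group H]
    {φ : Gal(Ω/K) →* H} (h : Unz L Z φ) {v : Pl K} (hv : v ∉ Z ∨ v ∈ D.S0) :
    hat L A φ (FreeGroup.of (Sum.inl v)) = 1 := by
  rw [hat_inl]
  by_cases h0 : v ∈ D.S0
  · rw [t_S0 L h0, map_one]
  · rcases hv with h1 | h1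
    · exact h.2 v h0 h1
    · exact absurd h1 h0

theorem hat_it {L : LDs D Ω} (A : GS D Ω) {k M : ℕ} {Z : Finset (Pl K)} (φ : JT L k M Z) :
    Sml p k M (hat L A φ.1).range ∧
      ∀ v, v ∉ Z → hat L A φ.1 (FreeGroup.of (Sum.inl v)) = 1 := by
  refine ⟨sml_inj φ.2.1 (Subgroup.inclusion (hat_range L A φ.1))
    (Subgroup.inclusion_injective _), fun v hv => ?_⟩
  exact hat_off A φ.2.2 (Or.inl hv)

/-- the projection -/
def pr (L : LDs D Ω) (A : GS D Ω) (k M : ℕ) (Z : Finset (Pl K)) :
    (IT A k M Z → Equiv.Perm (Fin M)) →* (JT L k M Z → Equiv.Perm (Fin M)) where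
  toFun g φ := g ⟨hat L A φ.1, hat_it A φ⟩
  map_one' := rfl
  map_mul' _ _ := rfl

theorem pr_th (L : LDs D Ω) (A : GS D Ω) (k M : ℕ) (Z : Finset (Pl K)) (w : FW A) :
    pr L A k M Z (Th A k M Z w) = hat L A (Ph L k M Z) w := by
  funext φ
  have h1 : hat L A φ.1 w = (hat L A (Ph L k M Z) w) φ := by
    have h2 : φ.1 = (Pi.evalMonoidHom _ φ).comp (Ph L k M Z) := rfl
    conv_lhs => rw [h2]
    rw [hat_comp]
    rfl
  exact h1

/-- the letters generate -/
theorem th_gen (A : GS D Ω) (k M : ℕ) (Z : Finset (Pl K)) :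
    (OnZ A Z).map (Th A k M Z) = (Th A k M Z).range := by
  refine le_antisymm (Subgroup.map_le_range _ _) ?_
  rw [MonoidHom.range_eq_map, ← FreeGroup.closure_range_of, MonoidHom.map_closure,
    Subgroup.closure_le]
  rintro _ ⟨_, ⟨x, rfl⟩, rfl⟩
  rcases x with v | i
  · by_cases hv : v ∈ Z
    · exact ⟨_, Subgroup.subset_closure (Or.inl ⟨v, hv, rfl⟩), rfl⟩
    · have h1 : Th A k M Z (FreeGroup.of (Sum.inl v)) = 1 := funext fun θ => θ.2.2 v hv
      rw [h1]
      exact Subgroup.one_mem _
  · exact ⟨_, Subgroup.subset_closure (Or.inr ⟨i, rfl⟩), rfl⟩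

/-- homomorphisms of the words of `wrd` -/
theorem map_wrd {Q : DP K Ω} {A : GS D Ω} (B : SD D Q A) {H S : Type} [Group H] [Group S]
    (f : H →* S) (t X : Pl K → H) (a b : Fin A.g → H) (v : Pl K) :
    f (wrd B t X a b v) = wrd B (fun v => f (t v)) (fun v => f (X v)) (fun i => f (a i))
      (fun i => f (b i)) v := by
  unfold wrd
  split_ifs
  · exact map_blk _ _ _ _ _
  · exact map_commutatorElement f _ _

theorem map_wrds {Q : DP K Ω} {A : GS D Ω} (B : SD D Q A) {H S : Type} [Group H] [Group S]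
    (f : H →* S) (t X : Pl K → H) (a b : Fin A.g → H) (l : List (Pl K)) :
    f (l.map fun v => wrd B t X a b v).prod = (l.map fun v => wrd B (fun v => f (t v))
      (fun v => f (X v)) (fun i => f (a i)) (fun i => f (b i)) v).prod := by
  rw [map_list_prod, List.map_map]
  congr 1
  apply List.map_congr_left
  intro v _
  exact map_wrd B f t X a b v

/-- the letters of the list of the places -/
def ltr {Q : DP K Ω} {A : GS D Ω} (B : SD D Q A) (l : List (Pl K)) : List (Pl K ⊕ Fin A.g) :=
  l.flatMap fun v => if v ∈ D.S0 then ((List.finRange A.g).filter fun i => B.pl i = v).map Sum.inr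
    else [Sum.inl v]

theorem mem_ltr {Q : DP K Ω} {A : GS D Ω} (B : SD D Q A) {l : List (Pl K)}
    {x : Pl K ⊕ Fin A.g} : x ∈ ltr B l ↔ (∃ v ∈ l, v ∉ D.S0 ∧ x = Sum.inl v) ∨
      ∃ i, B.pl i ∈ l ∧ x = Sum.inr i := by
  unfold ltr
  rw [List.mem_flatMap]
  constructor
  · rintro ⟨v, hv, hx⟩
    by_cases h : v ∈ D.S0
    · rw [if_pos h, List.mem_map] at hx
      obtain ⟨i, hi, rfl⟩ := hx
      have h1 : B.pl i = v := by
        have h2 := (List.mem_filter.1 hi).2
        simpa using h2
      exact Or.inr ⟨i, by rw [h1]; exact hv, rfl⟩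
    · rw [if_neg h, List.mem_singleton] at hx
      exact Or.inl ⟨v, hv, h, hx⟩
  · rintro (⟨v, hv, h, rfl⟩ | ⟨i, hi, rfl⟩)
    · exact ⟨v, hv, by rw [if_neg h]; exact List.mem_singleton_self _⟩
    · refine ⟨B.pl i, hi, ?_⟩
      rw [if_pos (B.mem i), List.mem_map]
      exact ⟨i, List.mem_filter.2 ⟨List.mem_finRange i, by simp⟩, rfl⟩

theorem ltr_nodup {Q : DP K Ω} {A : GS D Ω} (B : SD D Q A) {l : List (Pl K)} (hl : l.Nodup) :
    (ltr B l).Nodup := by
  unfold ltr
  rw [List.nodup_flatMap]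
  refine ⟨fun v _ => ?_, hl.imp_of_mem fun {v w} _ _ hne => ?_⟩
  · split_ifs
    · exact List.Nodup.map Sum.inr_injective ((List.nodup_finRange _).filter _)
    · exact List.nodup_singleton _
  · intro x hx hx'
    beta_reduce at hx hx'
    by_cases h : v ∈ D.S0
    · rw [if_pos h, List.mem_map] at hx
      obtain ⟨i, hi, rfl⟩ := hx
      have h1 : B.pl i = v := by
        have h2 := (List.mem_filter.1 hi).2
        simpa using h2
      by_cases h' : w ∈ D.S0
      · rw [if_pos h', List.mem_map] at hx'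
        obtain ⟨j, hj, h3⟩ := hx'
        have h4 : B.pl j = w := by
          have h2 := (List.mem_filter.1 hj).2
          simpa using h2
        rw [Sum.inr_injective h3] at h4
        exact hne (h1.symm.trans h4)
      · rw [if_neg h', List.mem_singleton] at hx'
        exact Sum.inr_ne_inl hx'
    · rw [if_neg h, List.mem_singleton] at hx
      subst hx
      by_cases h' : w ∈ D.S0
      · rw [if_pos h', List.mem_map] at hx'
        obtain ⟨j, hj, h3⟩ := hx'
        exact Sum.inr_ne_inl h3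
      · rw [if_neg h', List.mem_singleton] at hx'
        exact hne (Sum.inl_injective hx')

theorem ltr_prod {Q : DP K Ω} {A : GS D Ω} (B : SD D Q A) {H : Type} [Group H]
    (t X : Pl K → H) (a b : Fin A.g → H) (l : List (Pl K)) :
    ((ltr B l).map fun x => ⁅Sum.elim t a x, Sum.elim X b x⁆).prod =
      (l.map fun v => wrd B t X a b v).prod := by
  unfold ltr
  induction l with
  | nil => rfl
  | cons v l ih =>
    rw [List.flatMap_cons, List.map_append, List.prod_append, ih, List.map_cons, List.prod_cons]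
    congr 1
    unfold wrd
    split_ifs with h
    · unfold blk
      rw [List.map_map]
      rfl
    · simp

end H77.S3
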