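import Pool.Agent.H77.S3.Lrm

/-!
# [H77 S3 LCH] change of the local generators (N6)

`LOCv`: the local relation at `v` in normal form with pairs `a i`, `b i` of elements of `dec v`. `lch`: if the words `al i`, `be i` (`i < n`, `r = n + n`) generate the free group
modulo the laws and `ρ ∏ [al i, be i]` is a law, then `LOC0` for `(dl, ρ)` implies `LOCv` for the values `a i`, `b i` of `al i`, `be i` at `dl`.
-/

set_option autoImplicit false
set_option linter.dupNamespace false

open scoped NumberField commutatorElement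
open IsDedekindDomain
open scoped Classical

noncomputable section

namespace H77.S3

open H63.MA H38.BB H38.BG H57.PC H57.BRA H57.GP H77.WD Pool.Agent.H19.NF
  Pool.Agent.H19.AB Pool.Agent.H19.A2 H77.WE Pool.Agent.H19

variable {K : Type} [Field K] [NumberField K] {Ω : Type} [Field Ω] [Algebra K Ω]
  {p : ℕ} {ζ : K}

/-- the local relation at `v` in normal form -/
def LOCv (k M : ℕ) {m : ℕ} [NeZero (p ^ m)] (D : RD0 K p ζ) (Q : DP K Ω)
    (I : ((Gal(Ω/K) → Gal(Ω/K) → Gal(Ω/K) → ZMod (p ^ m)) ×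
      (Pl K → Gal(Ω/K) → Gal(Ω/K) → ZMod (p ^ m))) →+ AddCircle (1 : ℝ)) (v : Pl K) {n : ℕ}
    (a b : Fin n → Gal(Ω/K)) : Prop :=
  ∀ (H H' : Type) [Group H] [Finite H] [Group H'] [Finite H'] (π : H →* H')
    (e : H' → H' → ZMod (p ^ m)) (c : H → ZMod (p ^ m)), Function.Surjective π →
    (∀ z, π z = 1 → ∀ h, z * h = h * z) → (∀ x, e 1 x = 0) → (∀ x, e x 1 = 0) →
    (∀ x y, c (x * y) = c x + c y + e (π x) (π y)) → Lw p k M H → Rsm p k M H' →
    ∀ lam : Gal(Ω/K) →* H', H38.ML.FT lam → ∀ x y : Fin n → H, (∀ i, π (x i) = lam (a i)) →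
      (∀ i, π (y i) = lam (b i)) →
      I (0, rs D Q fun v' σ τ => if v' = v then e (lam σ) (lam τ) else 0) =
        -ZMod.toAddCircle (c ((List.finRange n).map fun i => ⁅x i, y i⁆).prod)

/-- relatively free groups: generators modulo the laws have inverse words -/
theorem rel_free {p k M r : ℕ} (φ : FreeGroup (Fin r) →* FreeGroup (Fin r))
    (hφ : ∀ j, ∃ w, Tw p k M r (φ w) = Tw p k M r (FreeGroup.of j)) :
    ∃ ψ : FreeGroup (Fin r) →* FreeGroup (Fin r), (∀ w, Tw p k M r (φ (ψ w)) = Tw p k M r w) ∧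
      ∀ w, Tw p k M r (ψ (φ w)) = Tw p k M r w := by
  have i1 : Finite (WT p k M r) := wt_finite p k M r
  set E : Subgroup (WT p k M r → Equiv.Perm (Fin M)) := (Tw p k M r).range with hE
  have hLE : Lw p k M E := lw_pi (fun θ : WT p k M r => θ.1) fun θ => θ.2
  let T : FreeGroup (Fin r) →* E := (Tw p k M r).rangeRestrict
  have hT : Function.Surjective T := (Tw p k M r).rangeRestrict_surjective
  have hT' : ∀ w w', T w = T w' ↔ Tw p k M r w = Tw p k M r w' := fun w w' =>
    ⟨fun h => congrArg Subtype.val h, fun h => Subtype.ext h⟩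
  have hT1 : ∀ w, T w = 1 → Tw p k M r w = 1 := fun w h => congrArg Subtype.val h
  obtain ⟨g, hg⟩ := desc T hT (T.comp φ) fun w hw => tw_law (hT1 w hw) hLE (T.comp φ)
  choose γ hγ using hφ
  let ψ : FreeGroup (Fin r) →* FreeGroup (Fin r) := FreeGroup.lift γ
  have h1 : (T.comp φ).comp ψ = T := FreeGroup.ext_hom _ _ fun j => by
    show T (φ (FreeGroup.lift γ (FreeGroup.of j))) = T (FreeGroup.of j)
    rw [FreeGroup.lift_apply_of]
    exact (hT' _ _).2 (hγ j)
  have h2 : ∀ w, T (φ (ψ w)) = T w := fun w => DFunLike.congr_fun h1 w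
  have hgs : Function.Surjective g := by
    intro y
    obtain ⟨w, rfl⟩ := hT y
    refine ⟨T (ψ w), ?_⟩
    rw [hg]
    exact h2 w
  have hgi : Function.Injective g := (Finite.injective_iff_surjective).2 hgs
  refine ⟨ψ, fun w => (hT' _ _).1 (h2 w), fun w => (hT' _ _).1 (hgi ?_)⟩
  rw [hg, hg]
  exact h2 (φ w)

theorem lch {k M m : ℕ} [NeZero (p ^ m)] {D : RD0 K p ζ} {Q : DP K Ω}
    {I : ((Gal(Ω/K) → Gal(Ω/K) → Gal(Ω/K) → ZMod (p ^ m)) ×
      (Pl K → Gal(Ω/K) → Gal(Ω/K) → ZMod (p ^ m))) →+ AddCircle (1 : ℝ)}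
    {v : Pl K} {r n : ℕ} {dl : Fin r → Gal(Ω/K)} {ρ : FreeGroup (Fin r)}
    (hρ : LOC0 k M D Q I v dl ρ)
    (hρ1 : ∀ (S : Type) [Group S] [Finite S], Sml p k M S → ∀ lam : Gal(Ω/K) →* S,
      H38.ML.FT lam → FreeGroup.lift (fun j => lam (dl j)) ρ = 1)
    (hr : r = n + n) (al be : Fin n → FreeGroup (Fin r))
    (hgen : ∀ j : Fin r, ∃ w ∈ Subgroup.closure (Set.range al ∪ Set.range be),
      Tw p k M r w = Tw p k M r (FreeGroup.of j))
    (hnf : Tw p k M r (ρ * ((List.finRange n).map fun i => ⁅al i, be i⁆).prod) = 1) :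
    LOCv k M D Q I v (fun i => FreeGroup.lift dl (al i)) fun i => FreeGroup.lift dl (be i) := by
  intro H H' _ _ _ _ π e c hπ hc he1 he2 hcm hLH hRH lam hlam x y hx hy
  have hLH' : Lw p k M H' := lw_surj hLH π hπ
  let ε : Fin r ≃ Fin n ⊕ Fin n := (finCongr hr).trans finSumFinEquiv.symm
  let φ : FreeGroup (Fin r) →* FreeGroup (Fin r) := FreeGroup.lift fun j => Sum.elim al be (ε j)
  have hφ1 : ∀ i, φ (FreeGroup.of (ε.symm (Sum.inl i))) = al i := fun i => by
    show FreeGroup.lift (fun j => Sum.elim al be (ε j)) _ = _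
    rw [FreeGroup.lift_apply_of, Equiv.apply_symm_apply]
    rfl
  have hφ2 : ∀ i, φ (FreeGroup.of (ε.symm (Sum.inr i))) = be i := fun i => by
    show FreeGroup.lift (fun j => Sum.elim al be (ε j)) _ = _
    rw [FreeGroup.lift_apply_of, Equiv.apply_symm_apply]
    rfl
  have hcl : Subgroup.closure (Set.range al ∪ Set.range be) ≤ φ.range := by
    rw [Subgroup.closure_le]
    rintro _ (⟨i, rfl⟩ | ⟨i, rfl⟩)
    · exact ⟨_, hφ1 i⟩
    · exact ⟨_, hφ2 i⟩
  obtain ⟨ψ, hψ1, hψ2⟩ := rel_free (p := p) (k := k) (M := M) φ fun j => by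
    obtain ⟨w, hw, hw2⟩ := hgen j
    obtain ⟨w', rfl⟩ := hcl hw
    exact ⟨w', hw2⟩
  let X : FreeGroup (Fin r) →* H := FreeGroup.lift fun j => Sum.elim x y (ε j)
  have hX1 : ∀ i, X (FreeGroup.of (ε.symm (Sum.inl i))) = x i := fun i => by
    show FreeGroup.lift (fun j => Sum.elim x y (ε j)) _ = _
    rw [FreeGroup.lift_apply_of, Equiv.apply_symm_apply]
    rfl
  have hX2 : ∀ i, X (FreeGroup.of (ε.symm (Sum.inr i))) = y i := fun i => by
    show FreeGroup.lift (fun j => Sum.elim x y (ε j)) _ = _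
    rw [FreeGroup.lift_apply_of, Equiv.apply_symm_apply]
    rfl
  -- laws
  have hlaw : ∀ {S : Type} [Group S], Lw p k M S → ∀ (f : FreeGroup (Fin r) →* S) {w w'},
      Tw p k M r w = Tw p k M r w' → f w = f w' := by
    intro S _ hS f w w' hww
    have h1 : Tw p k M r (w * w'⁻¹) = 1 := by rw [map_mul, map_inv, hww, mul_inv_cancel]
    have h2 := tw_law h1 hS f
    rw [map_mul, map_inv] at h2
    exact mul_inv_eq_one.1 h2
  have hU : ∀ w, FreeGroup.lift (fun j => X (ψ (FreeGroup.of j))) w = X (ψ w) := by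
    intro w
    have h1 : FreeGroup.lift (fun j => X (ψ (FreeGroup.of j))) = X.comp ψ :=
      FreeGroup.ext_hom _ _ fun j => by
        rw [FreeGroup.lift_apply_of]
        rfl
    rw [h1]
    rfl
  have hUa : ∀ i, X (ψ (al i)) = x i := fun i => by
    rw [← hφ1, hlaw hLH X (hψ2 _), hX1]
  have hUb : ∀ i, X (ψ (be i)) = y i := fun i => by
    rw [← hφ2, hlaw hLH X (hψ2 _), hX2]
  let ev : FreeGroup (Fin r) →* H' := FreeGroup.lift fun j => lam (dl j)
  have hev : ∀ w, ev w = lam (FreeGroup.lift dl w) := by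
    intro w
    have h1 : ev = lam.comp (FreeGroup.lift dl) := FreeGroup.ext_hom _ _ fun j => by
      show FreeGroup.lift (fun j => lam (dl j)) _ = lam (FreeGroup.lift dl _)
      rw [FreeGroup.lift_apply_of, FreeGroup.lift_apply_of]
    rw [h1]
    rfl
  have hπX : π.comp X = ev.comp φ := by
    refine FreeGroup.ext_hom _ _ fun j => ?_
    show π (FreeGroup.lift (fun j => Sum.elim x y (ε j)) (FreeGroup.of j)) =
      ev (FreeGroup.lift (fun j => Sum.elim al be (ε j)) (FreeGroup.of j))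
    rw [FreeGroup.lift_apply_of, FreeGroup.lift_apply_of]
    rcases ε j with i | i
    · rw [Sum.elim_inl, Sum.elim_inl, hx, hev]
    · rw [Sum.elim_inr, Sum.elim_inr, hy, hev]
  have hπu : ∀ j, π (X (ψ (FreeGroup.of j))) = lam (dl j) := by
    intro j
    have h1 : π (X (ψ (FreeGroup.of j))) = ev (φ (ψ (FreeGroup.of j))) :=
      DFunLike.congr_fun hπX _
    rw [h1, hlaw hLH' ev (hψ1 _)]
    show FreeGroup.lift (fun j => lam (dl j)) (FreeGroup.of j) = _
    rw [FreeGroup.lift_apply_of]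
  have h1 := hρ H H' π e c hπ hc he1 he2 hcm hLH hRH lam hlam
    (fun j => X (ψ (FreeGroup.of j))) hπu
  rw [h1, hU]
  set z : H := ((List.finRange n).map fun i => ⁅x i, y i⁆).prod with hz
  have h2 : X (ψ ρ) * z = 1 := by
    have h3 := tw_law hnf hLH (X.comp ψ)
    rw [map_mul] at h3
    have h4 : (X.comp ψ) ((List.finRange n).map fun i => ⁅al i, be i⁆).prod = z := by
      rw [map_list_prod, List.map_map]
      congr 1
      apply List.map_congr_left
      intro i _
      show X (ψ ⁅al i, be i⁆) = _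
      rw [map_commutatorElement, map_commutatorElement, hUa, hUb]
    rw [h4] at h3
    exact h3
  have h3 : X (ψ ρ) = z⁻¹ := eq_inv_of_mul_eq_one_left h2
  have h4 : π z = 1 := by
    have h5 : π (X (ψ ρ)) = 1 := by
      have h6 : π (X (ψ ρ)) = ev (φ (ψ ρ)) := DFunLike.congr_fun hπX _
      rw [h6, hlaw hLH' ev (hψ1 _)]
      by_contra hne
      obtain ⟨S, i3, i4, a, hS, ha⟩ := hRH _ hne
      apply ha
      have h7 := hρ1 S hS (a.comp lam) (ft_comp a hlam)
      have h8 : a.comp ev = FreeGroup.lift (fun j => (a.comp lam) (dl j)) :=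
        FreeGroup.ext_hom _ _ fun j => by
          show a (FreeGroup.lift (fun j => lam (dl j)) _) = _
          rw [FreeGroup.lift_apply_of, FreeGroup.lift_apply_of]
          rfl
      have h9 := DFunLike.congr_fun h8 ρ
      rw [MonoidHom.comp_apply] at h9
      rw [h9]
      exact h7
    rw [h3, map_inv, inv_eq_one] at h5
    exact h5
  have hc1 : c 1 = 0 := by
    have h5 := hcm 1 1
    rw [mul_one, map_one, he1, add_zero] at h5
    linear_combination -h5
  have h5 : c z⁻¹ = -c z := by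
    have h6 := hcm z z⁻¹
    rw [mul_inv_cancel, h4, he1, hc1] at h6
    linear_combination -h6
  rw [h3, h5, map_neg]

end H77.S3
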