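import Pool.Agent.H77.S3.Big
import Pool.Agent.H77.S3.Ddu

/-!
# [H77 S3 LRG] generation of the local images, descent of homomorphisms, torsion of the circle

* `lgen`: if the `dl j ∈ dec v` detect the Kummer characters on `dec v`, then `ψ (dec v)` is generated by the `ψ (dl j)` for every `ψ : Γ → H` of finite type whose image is a `p`-group.
* `desc`: descent of homomorphisms along a surjection.
* `tor_circ`: elements of `ℝ/ℤ` killed by `n` come from `ZMod n`.
-/

set_option autoImplicit false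
set_option linter.dupNamespace false

open scoped NumberField commutatorElement
open IsDedekindDomain
open scoped Classical

noncomputable section

namespace H77.S3

open H63.MA H38.BB H38.BG H57.PC H57.BRA H57.GP H77.WD Pool.Agent.H19.NF
  Pool.Agent.H19.AB Pool.Agent.H19.A2 H77.WE Pool.Agent.H19

theorem desc {A B C : Type} [Group A] [Group B] [Group C] (f : A →* B) (hf : Function.Surjective f)
    (g : A →* C) (h : ∀ a, f a = 1 → g a = 1) : ∃ k : B →* C, ∀ a, k (f a) = g a := by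
  choose s hs using hf
  have key : ∀ a a', f a = f a' → g a = g a' := by
    intro a a' haa
    have h1 := h (a * a'⁻¹) (by rw [map_mul, map_inv, haa, mul_inv_cancel])
    rw [map_mul, map_inv] at h1
    exact mul_inv_eq_one.1 h1
  refine ⟨MonoidHom.mk' (fun b => g (s b)) fun b b' => ?_, fun a => key _ _ (hs _)⟩
  rw [← map_mul]
  exact key _ _ (by rw [hs, map_mul, hs, hs])

theorem tor_circ {n : ℕ} [NeZero n] (y : AddCircle (1 : ℝ)) (hy : n • y = 0) :
    ∃ a : ZMod n, ZMod.toAddCircle a = y := by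
  obtain ⟨x, rfl⟩ := QuotientAddGroup.mk_surjective y
  have h1 : ((n • x : ℝ) : AddCircle (1 : ℝ)) = 0 := by
    rw [AddCircle.coe_nsmul]
    exact hy
  rw [AddCircle.coe_eq_zero_iff] at h1
  obtain ⟨j, hj⟩ := h1
  refine ⟨(j : ZMod n), ?_⟩
  rw [ZMod.toAddCircle_intCast]
  congr 1
  have hn : (n : ℝ) ≠ 0 := Nat.cast_ne_zero.2 (NeZero.ne n)
  rw [zsmul_eq_mul, mul_one, nsmul_eq_mul] at hj
  rw [hj]
  field_simp

variable {K : Type} [Field K] [NumberField K] {Ω : Type} [Field Ω] [Algebra K Ω] [IsAlgClosure K Ω]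
  {p : ℕ} {ζ : K}

theorem lgen (hp : p.Prime) (hζ : IsPrimitiveRoot ζ p) {D : RD0 K p ζ} {Q : DP K Ω} {v : Pl K}
    (hv : v ∈ D.S0) {r : ℕ} {dl : Fin r → Gal(Ω/K)}
    (hd : ∀ j, dl j ∈ dec (K := K) (Q.P v))
    (hdl : ∀ c : Kˣ, (∀ j, kk p ζ c (dl j) = 0) → ∀ σ ∈ dec (K := K) (Q.P v), kk p ζ c σ = 0)
    {H : Type} [Group H] [Finite H] (ψ : Gal(Ω/K) →* H) (hψ : H38.ML.FT ψ)
    (hP : IsPGroup p ψ.range) {σ : Gal(Ω/K)} (hσ : σ ∈ dec (K := K) (Q.P v)) :
    ∃ w : FreeGroup (Fin r), FreeGroup.lift (fun j => ψ (dl j)) w = ψ σ := by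
  set P : Subgroup H := (dec (K := K) (Q.P v)).map ψ with hPdef
  have hPP : IsPGroup p P := by
    refine hP.to_le ?_
    rintro _ ⟨x, -, rfl⟩
    exact ⟨x, rfl⟩
  set M₀ : Subgroup P := (FreeGroup.lift (fun j => ψ (dl j))).range.subgroupOf P with hM₀
  by_contra hcon
  have hM1 : M₀ ≠ ⊤ := by
    intro h1
    have h2 : (⟨ψ σ, σ, hσ, rfl⟩ : P) ∈ M₀ := by rw [h1]; trivial
    rw [hM₀, Subgroup.mem_subgroupOf] at h2
    exact hcon h2
  obtain ⟨f, hf1, hf2⟩ := pg_char hp hPP M₀ hM1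
  let q : dec (K := K) (Q.P v) →* P :=
    { toFun := fun u => ⟨ψ u, u, u.2, rfl⟩
      map_one' := Subtype.ext (map_one ψ)
      map_mul' := fun u w => Subtype.ext (map_mul ψ u.1 w.1) }
  have hdep : ∀ v' : Pl K, ∃ δ : dec (K := K) (Q.P v') →* Multiplicative (ZMod p),
      (v' ∈ D.S0 → ∃ E : IntermediateField K Ω, FiniteDimensional K E ∧
        ∀ u : dec (K := K) (Q.P v'), (u : Gal(Ω/K)) ∈ E.fixingSubgroup → δ u = 1) ∧
      (v' = v → ∀ (u : dec (K := K) (Q.P v')) (u' : dec (K := K) (Q.P v)),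
        (u : Gal(Ω/K)) = u' → δ u = f (q u')) := by
    intro v'
    by_cases h : v' = v
    · subst h
      refine ⟨f.comp q, fun _ => ?_, fun _ u u' huu => ?_⟩
      · obtain ⟨E, hE, hk⟩ := hψ
        refine ⟨E, hE, fun u hu => ?_⟩
        have h1 : q u = 1 := Subtype.ext (MonoidHom.mem_ker.1 (hk hu))
        rw [MonoidHom.comp_apply, h1, map_one]
      · have h1 : u = u' := Subtype.ext huu
        rw [h1]
        rfl
    · exact ⟨1, fun _ => ⟨⊥, inferInstance, fun _ _ => rfl⟩, fun h' => absurd h' h⟩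
  choose δ hδ1 hδ2 using hdep
  obtain ⟨b, hb⟩ := lock hp hζ D.S0 Q δ hδ1
  have hbv : ∀ u : dec (K := K) (Q.P v), kk p ζ b (u : Gal(Ω/K)) =
      Multiplicative.toAdd (f (q u)) := fun u => by
    rw [hb v hv u, hδ2 v rfl u u rfl]
  have h0 : ∀ j, kk p ζ b (dl j) = 0 := by
    intro j
    have h1 := hbv ⟨dl j, hd j⟩
    have h2 : q ⟨dl j, hd j⟩ ∈ M₀ := by
      rw [hM₀, Subgroup.mem_subgroupOf]
      exact ⟨FreeGroup.of j, by rw [FreeGroup.lift_apply_of]; rfl⟩
    rw [hf2 _ h2] at h1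
    exact h1
  have h3 := hdl b h0
  apply hf1
  refine MonoidHom.ext fun x => ?_
  obtain ⟨_, u, hu, rfl⟩ := x
  have h4 := hbv ⟨u, hu⟩
  rw [h3 u hu] at h4
  exact Multiplicative.toAdd.injective h4.symm

end H77.S3
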