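import Pool.Agent.H77.S3.Lrg
import Pool.Agent.H77.S3.Rel

/-!
# [H77 S3 LRR] the local relator (N3)

`LOC0`: the local relation with a word `ρ` in the letters `dl j`. `lrr`: it exists.
-/

set_option autoImplicit false
set_option linter.dupNamespace false

open scoped NumberField commutatorElement
open IsDedekindDomain
open scoped Classical

noncomputable section

namespace H77.S3

open H63.MA H38.BB H38.BG H57.PC H57.BRA H57.GP H77.WD Pool.Agent.H19.NF
  Pool.Agent.H19.AB Pool.Agent.H19.A2 H77.WE Pool.Agent.H19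

variable {K : Type} [Field K] [NumberField K] {Ω : Type} [Field Ω] [Algebra K Ω]
  {p : ℕ} {ζ : K}

/-- the local relation at `v` with the relator `ρ` (a word in the letters `dl j`) -/
def LOC0 (k M : ℕ) {m : ℕ} [NeZero (p ^ m)] (D : RD0 K p ζ) (Q : DP K Ω)
    (I : ((Gal(Ω/K) → Gal(Ω/K) → Gal(Ω/K) → ZMod (p ^ m)) ×
      (Pl K → Gal(Ω/K) → Gal(Ω/K) → ZMod (p ^ m))) →+ AddCircle (1 : ℝ)) (v : Pl K) {r : ℕ}
    (dl : Fin r → Gal(Ω/K)) (ρ : FreeGroup (Fin r)) : Prop :=
  ∀ (H H' : Type) [Group H] [Finite H] [Group H'] [Finite H'] (π : H →* H')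
    (e : H' → H' → ZMod (p ^ m)) (c : H → ZMod (p ^ m)), Function.Surjective π →
    (∀ z, π z = 1 → ∀ h, z * h = h * z) → (∀ x, e 1 x = 0) → (∀ x, e x 1 = 0) →
    (∀ x y, c (x * y) = c x + c y + e (π x) (π y)) → Lw p k M H → Rsm p k M H' →
    ∀ lam : Gal(Ω/K) →* H', H38.ML.FT lam → ∀ x : Fin r → H, (∀ j, π (x j) = lam (dl j)) →
      I (0, rs D Q fun v' σ τ => if v' = v then e (lam σ) (lam τ) else 0) =
        ZMod.toAddCircle (c (FreeGroup.lift x ρ))

/-- small homomorphisms of the free group -/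
def WT (p k M r : ℕ) : Type := {θ : FreeGroup (Fin r) →* Equiv.Perm (Fin M) // Sml p k M θ.range}

/-- the universal one -/
def Tw (p k M r : ℕ) : FreeGroup (Fin r) →* (WT p k M r → Equiv.Perm (Fin M)) :=
  MonoidHom.pi fun θ => θ.1

theorem wt_finite (p k M r : ℕ) : Finite (WT p k M r) := by
  refine Finite.of_injective (β := Fin r → Equiv.Perm (Fin M))
    (fun θ i => θ.1 (FreeGroup.of i)) fun θ θ' h => ?_
  exact Subtype.ext (FreeGroup.ext_hom _ _ fun i => congrFun h i)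

/-- words which are laws -/
theorem tw_law {p k M r : ℕ} {w : FreeGroup (Fin r)} (hw : Tw p k M r w = 1) {H : Type} [Group H]
    (hH : Lw p k M H) (f : FreeGroup (Fin r) →* H) : f w = 1 := by
  refine hH r w (fun S _ _ hS g => ?_) f
  obtain ⟨j, hj⟩ := emb S hS.2.1
  apply hj
  rw [map_one]
  exact congrFun hw ⟨j.comp g, sml_range hS j g⟩

/-- the values of the small local types -/
def VT (k M : ℕ) {r : ℕ} (p : ℕ) (dl : Fin r → Gal(Ω/K)) : Type :=
  {x : Fin r → Equiv.Perm (Fin M) // ∃ lam : Gal(Ω/K) →* Equiv.Perm (Fin M),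
    H38.ML.FT lam ∧ Sml p k M lam.range ∧ ∀ j, lam (dl j) = x j}

/-- the chosen homomorphism with these values -/
def vl {k M r : ℕ} {dl : Fin r → Gal(Ω/K)} (x : VT (K := K) k M p dl) :
    Gal(Ω/K) →* Equiv.Perm (Fin M) := x.2.choose

theorem vl_ft {k M r : ℕ} {dl : Fin r → Gal(Ω/K)} (x : VT (K := K) k M p dl) :
    H38.ML.FT (vl x) := x.2.choose_spec.1

theorem vl_sml {k M r : ℕ} {dl : Fin r → Gal(Ω/K)} (x : VT (K := K) k M p dl) :
    Sml p k M (vl x).range := x.2.choose_spec.2.1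

theorem vl_dl {k M r : ℕ} {dl : Fin r → Gal(Ω/K)} (x : VT (K := K) k M p dl) (j : Fin r) :
    vl x (dl j) = x.1 j := x.2.choose_spec.2.2 j

/-- the universal local homomorphism -/
def Lam (k M : ℕ) {r : ℕ} (p : ℕ) (dl : Fin r → Gal(Ω/K)) :
    Gal(Ω/K) →* (VT (K := K) k M p dl → Equiv.Perm (Fin M)) := MonoidHom.pi fun x => vl x

theorem lift_wt {k M r : ℕ} {dl : Fin r → Gal(Ω/K)} (x : VT (K := K) k M p dl) :
    Sml p k M (FreeGroup.lift x.1).range := by
  refine sml_inj (vl_sml x) (Subgroup.inclusion (K := (vl x).range) ?_)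
    (Subgroup.inclusion_injective _)
  rw [FreeGroup.range_lift_eq_closure, Subgroup.closure_le]
  rintro _ ⟨j, rfl⟩
  exact ⟨dl j, vl_dl x j⟩

/-- the projection -/
def prv (k M : ℕ) {r : ℕ} (p : ℕ) (dl : Fin r → Gal(Ω/K)) :
    (WT p k M r → Equiv.Perm (Fin M)) →* (VT (K := K) k M p dl → Equiv.Perm (Fin M)) where
  toFun g x := g ⟨FreeGroup.lift x.1, lift_wt x⟩
  map_one' := rfl
  map_mul' _ _ := rfl

theorem prv_tw (k M : ℕ) {r : ℕ} (p : ℕ) (dl : Fin r → Gal(Ω/K)) (w : FreeGroup (Fin r)) :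
    prv (K := K) k M p dl (Tw p k M r w) = FreeGroup.lift (fun j => Lam (K := K) k M p dl (dl j)) w := by
  funext x
  have h1 : (Pi.evalMonoidHom (fun _ : VT (K := K) k M p dl => Equiv.Perm (Fin M)) x).comp
      (FreeGroup.lift (fun j => Lam (K := K) k M p dl (dl j))) = FreeGroup.lift x.1 :=
    FreeGroup.ext_hom _ _ fun j => by
      rw [MonoidHom.comp_apply, FreeGroup.lift_apply_of, FreeGroup.lift_apply_of]
      exact vl_dl x j
  exact (DFunLike.congr_fun h1 w).symm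

end H77.S3
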