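import Pool.Agent.H77.S3.Crt
import Pool.Agent.H77.S3.Big

/-!
# [H77 S3 RLA] the relation modulo `[R, G]`

`rel_aux`: `G` a finite group with the laws of the small groups, `f : G → H'` onto, `Φ : Γ → H'` honest, `H'` residually small, `t v`, `X v`, `a i`, `b i` in `G` over the values of `Φ` at
the `t_v`, Frobenius elements, `a i`, `b i`: the product of the `wrd` is in `[ker f, G]`.
-/

set_option autoImplicit false
set_option linter.dupNamespace false

open scoped NumberField commutatorElement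
open IsDedekindDomain
open scoped Classical

noncomputable section

namespace H77.S3

open H63.MA H38.BB H38.BG H57.PC H57.BRA H57.GP H77.WD Pool.Agent.H19.NF
  Pool.Agent.H19.AB Pool.Agent.H19.A2 H77.WE Pool.Agent.H19

variable {K : Type} [Field K] [NumberField K] {Ω : Type} [Field Ω] [Algebra K Ω]
  {p : ℕ} {ζ : K}

/-- the functional is additive over the places -/
theorem fn_sum {m : ℕ} {D : RD0 K p ζ} {Q : DP K Ω}
    (I : ((Gal(Ω/K) → Gal(Ω/K) → Gal(Ω/K) → ZMod (p ^ m)) ×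
      (Pl K → Gal(Ω/K) → Gal(Ω/K) → ZMod (p ^ m))) →+ AddCircle (1 : ℝ))
    (Ψ : Gal(Ω/K) → Gal(Ω/K) → ZMod (p ^ m)) :
    I (0, rs D Q fun _ => Ψ) =
      ∑ v ∈ D.S0, I (0, rs D Q fun v' σ τ => if v' = v then Ψ σ τ else 0) := by
  have h1 : ∀ S : Finset (Pl K), ∑ v ∈ S, I (0, rs D Q fun v' σ τ => if v' = v then Ψ σ τ else 0) =
      I (0, ∑ v ∈ S, rs D Q fun v' σ τ => if v' = v then Ψ σ τ else 0) := by
    intro S
    induction S using Finset.induction_on with
    | empty =>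
      rw [Finset.sum_empty, Finset.sum_empty]
      exact (map_zero I).symm
    | insert v S hv ih =>
      rw [Finset.sum_insert hv, Finset.sum_insert hv, ih, ← map_add, Prod.mk_add_mk, add_zero]
  rw [h1]
  congr 2
  funext v' σ τ
  rw [Finset.sum_apply, Finset.sum_apply, Finset.sum_apply]
  unfold rs
  by_cases hd : v' ∈ D.S0 ∧ σ ∈ dec (K := K) (Q.P v') ∧ τ ∈ dec (K := K) (Q.P v')
  · simp only [if_pos hd]
    rw [Finset.sum_ite_eq, if_pos hd.1]
  · simp only [if_neg hd]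
    rw [Finset.sum_const_zero]

/-- coordinates of products of elements of the kernel -/
theorem c_prod {n : ℕ} {H H' : Type} [Group H] [Group H'] {π : H →* H'} {e : H' → H' → ZMod n}
    {c : H → ZMod n} (he : ∀ x, e 1 x = 0) (hc : ∀ x y, c (x * y) = c x + c y + e (π x) (π y))
    {ι : Type} (f : ι → H) (l : List ι) (hf : ∀ i ∈ l, π (f i) = 1) :
    c (l.map f).prod = (l.map fun i => c (f i)).sum := by
  induction l with
  | nil =>
    have h1 := hc 1 1
    rw [mul_one, map_one, he, add_zero] at h1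
    rw [List.map_nil, List.map_nil, List.prod_nil, List.sum_nil]
    linear_combination -h1
  | cons i l ih =>
    rw [List.map_cons, List.prod_cons, List.map_cons, List.sum_cons, hc,
      ih fun j hj => hf j (List.mem_cons_of_mem _ hj), hf i List.mem_cons_self, he, add_zero]

variable [IsAlgClosure K Ω]

theorem rel_aux (hp : p.Prime) (hζ : IsPrimitiveRoot ζ p) {k M m j : ℕ} {z : K}
    (hz : IsPrimitiveRoot z (p ^ (j + 1))) (hkj : k ≤ j + 1) (hkm : k ≤ m)
    [NeZero (p ^ m)] (hm : 1 ≤ m) {D : RD0 K p ζ} {L : LDs D Ω} {Q : DP K Ω} {Fr : FR L}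
    {I : ((Gal(Ω/K) → Gal(Ω/K) → Gal(Ω/K) → ZMod (p ^ m)) ×
      (Pl K → Gal(Ω/K) → Gal(Ω/K) → ZMod (p ^ m))) →+ AddCircle (1 : ℝ)}
    (hI : FnC p k m D L Q Fr I) {A : GS D Ω} {B : SD D Q A} (hB : LOC k M D Q I A B)
    {Z : Finset (Pl K)} (hZ : ∀ v ∈ Z, v ∉ D.S0) {G H' : Type} [Group G] [Finite G] [Group H']
    [Finite H'] (hG : Lw p k M G) (hH' : Rsm p k M H') (f : G →* H') (hf : Function.Surjective f)
    (Φ : Gal(Ω/K) →* H') (hΦ : Unz L Z Φ) (t X : Pl K → G) (a b : Fin A.g → G)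
    (ht : ∀ v ∈ Z, f (t v) = Φ (L.t v)) (hX : ∀ v ∈ Z, f (X v) = Φ (Fr.F v))
    (ha : ∀ i, f (a i) = Φ (A.a i)) (hb : ∀ i, f (b i) = Φ (B.b i)) {l : List (Pl K)}
    (hl : l.Nodup) (hlZ : ∀ v, v ∈ l ↔ v ∈ Z ∨ v ∈ D.S0) :
    (l.map fun v => wrd B t X a b v).prod ∈ ⁅f.ker, (⊤ : Subgroup G)⁆ := by
  set N : Subgroup G := ⁅f.ker, (⊤ : Subgroup G)⁆ with hN
  have hNle : N ≤ f.ker := Subgroup.commutator_le_left _ _
  let q : G →* G ⧸ N := QuotientGroup.mk' N
  have hq : Function.Surjective q := QuotientGroup.mk'_surjective N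
  have hqk : ∀ x : G, q x = 1 ↔ x ∈ N := fun x => QuotientGroup.eq_one_iff x
  let π : G ⧸ N →* H' := QuotientGroup.lift N f fun x hx => MonoidHom.mem_ker.1 (hNle hx)
  have hπq : ∀ x, π (q x) = f x := fun x => rfl
  have hπ : Function.Surjective π := by
    intro x
    obtain ⟨y, rfl⟩ := hf x
    exact ⟨q y, rfl⟩
  have hcen : ∀ x, π x = 1 → ∀ y, x * y = y * x := by
    intro x hx y
    obtain ⟨x, rfl⟩ := hq x
    obtain ⟨y, rfl⟩ := hq y
    have h1 : ⁅x, y⁆ ∈ N := Subgroup.commutator_mem_commutator (MonoidHom.mem_ker.2 hx) trivial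
    have h2 := (hqk _).2 h1
    rw [map_commutatorElement] at h2
    exact commutatorElement_eq_one_iff_mul_comm.1 h2
  have hLq : Lw p k M (G ⧸ N) := lw_surj hG q hq
  have hLf : Lw p k M H' := lw_surj hG f hf
  -- exponents
  have hexp : ∀ x : H', x ^ p ^ k = 1 := lw_pow hLf
  -- every word of the list is in the kernel
  have hone : ∀ v, (v ∈ Z ∨ v ∈ D.S0) → f (wrd B t X a b v) = 1 := by
    intro v hv
    rw [map_wrd]
    unfold wrd
    by_cases h0 : v ∈ D.S0
    · rw [if_pos h0, funext ha, funext hb]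
      by_contra hne
      obtain ⟨S, i1, i2, g, hS, hg⟩ := hH' _ hne
      rw [map_blk] at hg
      exact hg (blk_one hp hm hI hB h0 _ S rfl hS (g.comp Φ) (ft_comp g hΦ.1))
    · rw [if_neg h0]
      have hvZ : v ∈ Z := hv.resolve_right h0
      show ⁅f (t v), f (X v)⁆ = 1
      rw [ht v hvZ, hX v hvZ, commutatorElement_eq_one_iff_mul_comm]
      refine (frm hp hζ hz Fr h0 Φ hΦ.1 fun τ _ => ?_).symm
      obtain ⟨i, hi⟩ := pow_dvd_pow p hkj
      rw [hi, pow_mul, hexp, one_pow]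
  have hone' : ∀ v, (v ∈ Z ∨ v ∈ D.S0) → π (q (wrd B t X a b v)) = 1 := hone
  rw [← hqk]
  by_contra hne
  have hker : π (q (l.map fun v => wrd B t X a b v).prod) = 1 := by
    rw [map_list_prod, map_list_prod, List.map_map, List.map_map]
    apply List.prod_eq_one
    intro x hx
    obtain ⟨v, hv, rfl⟩ := List.mem_map.1 hx
    exact hone' v ((hlZ v).1 hv)
  obtain ⟨e, c, he1, he2, hc, hcw⟩ := cex π hπ hcen (NeZero.ne (p ^ m)) (fun x _ => by
    obtain ⟨i, hi⟩ := pow_dvd_pow p hkm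
    rw [hi, pow_mul, lw_pow hLq, one_pow]) hker hne
  apply hcw
  -- the closed cochain
  have hcl : ∀ x y w : H', e y w - e (x * y) w + e x (y * w) - e x y = 0 := by
    intro x y w
    obtain ⟨x, rfl⟩ := hπ x
    obtain ⟨y, rfl⟩ := hπ y
    obtain ⟨w, rfl⟩ := hπ w
    have h1 := hc y w
    have h2 := hc (x * y) w
    have h3 := hc x (y * w)
    have h4 := hc x y
    rw [map_mul] at h2 h3
    rw [mul_assoc] at h2
    linear_combination h2 + h4 - h1 - h3
  have h1 := hI (fun σ τ => e (Φ σ) (Φ τ)) (fun _ _ => 0)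
    ⟨H', inferInstance, inferInstance, Φ, e, fun v _ τ _ => hexp _, hΦ.1, he1, he2,
      fun _ _ => rfl⟩ (fun σ τ υ => by
      show e (Φ τ) (Φ υ) - e (Φ (σ * τ)) (Φ υ) + e (Φ σ) (Φ (τ * υ)) - e (Φ σ) (Φ τ) = 0
      rw [map_mul, map_mul, hcl]) (fun _ => ⟨⊥, inferInstance, fun _ _ _ => rfl⟩)
  have h2 : (rs D Q fun (_ : Pl K) σ τ => e (Φ σ) (Φ τ) - d1 (fun _ : Gal(Ω/K) =>
      (0 : ZMod (p ^ m))) σ τ) = rs D Q fun _ => fun σ τ => e (Φ σ) (Φ τ) := by
    funext v σ τ
    unfold rs d1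
    split_ifs
    · ring
    · rfl
  rw [h2, fn_sum] at h1
  -- the places at `S0`
  have h3 : ∀ v ∈ D.S0, I (0, rs D Q fun v' σ τ => if v' = v then e (Φ σ) (Φ τ) else 0) =
      -ZMod.toAddCircle (c (q (wrd B t X a b v))) := by
    intro v hv
    have h4 := hB v hv (G ⧸ N) H' π e c hπ hcen he1 he2 hc hLq hH' Φ hΦ.1 (fun i => q (a i))
      (fun i => q (b i)) (fun i _ => ha i) fun i _ => hb i
    rw [map_wrd]
    unfold wrd
    rw [if_pos hv]
    exact h4
  rw [Finset.sum_congr rfl h3, Finset.sum_neg_distrib, ← map_sum] at h1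
  -- the tori
  have h5 : TS1 L Fr (fun σ τ => e (Φ σ) (Φ τ)) = ∑ v ∈ Z, c (q (wrd B t X a b v)) := by
    unfold TS1
    rw [finsum_eq_sum_of_support_subset (s := Z)]
    · refine Finset.sum_congr rfl fun v hv => ?_
      have h0 : v ∉ D.S0 := hZ v hv
      rw [map_wrd]
      unfold wrd br
      rw [if_neg h0]
      have h6 : π ⁅q (t v), q (X v)⁆ = 1 := by
        have h7 := hone' v (Or.inl hv)
        rw [map_wrd] at h7
        unfold wrd at h7
        rwa [if_neg h0] at h7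
      have h7 := hc ⁅q (t v), q (X v)⁆ (q (X v) * q (t v))
      rw [h6, he1, add_zero] at h7
      have h8 : ⁅q (t v), q (X v)⁆ * (q (X v) * q (t v)) = q (t v) * q (X v) := by
        rw [commutatorElement_def]
        group
      have h9 := hc (q (t v)) (q (X v))
      have h10 := hc (q (X v)) (q (t v))
      rw [hπq, hπq, ht v hv, hX v hv] at h9 h10
      rw [h8] at h7
      linear_combination h7 - h9 + h10
    · intro v hv
      by_contra hvZ
      apply hv
      have h6 : Φ (L.t v) = 1 := by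
        by_cases h0 : v ∈ D.S0
        · rw [t_S0 L h0, map_one]
        · exact hΦ.2 v h0 fun h => hvZ (Finset.mem_coe.2 h)
      show e (Φ (L.t v)) (Φ (Fr.F v)) - e (Φ (Fr.F v)) (Φ (L.t v)) = 0
      rw [h6, he1, he2, sub_zero]
  rw [h5, neg_eq_iff_add_eq_zero, ← map_add] at h1
  have h6 : ∑ v ∈ D.S0, c (q (wrd B t X a b v)) + ∑ v ∈ Z, c (q (wrd B t X a b v)) = 0 := by
    apply ZMod.toAddCircle_injective (N := p ^ m)
    rw [h1, map_zero]
  rw [map_list_prod, List.map_map, c_prod he1 hc (q ∘ fun v => wrd B t X a b v) l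
    fun v hv => hone' v ((hlZ v).1 hv)]
  have h7 : l.toFinset = D.S0 ∪ Z := by
    ext v
    rw [List.mem_toFinset, hlZ, Finset.mem_union, or_comm]
  have h8 : (l.map fun v => c ((q ∘ fun v => wrd B t X a b v) v)).sum =
      ∑ v ∈ l.toFinset, c (q (wrd B t X a b v)) := by
    rw [List.sum_toFinset _ hl]
    rfl
  rw [h8, h7, Finset.sum_union, h6]
  rw [Finset.disjoint_left]
  exact fun v hv hvZ => hZ v hvZ hv

end H77.S3
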