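import Pool.Agent.H77.S3.Crt
import Pool.Agent.H77.WE.GlU
import Pool.Agent.H82.SF.Ff

/-!
# [H77 S3 TSI] (N1) the functional does not depend on the places over the primes outside `S0`

* `br_cj`: `br Ψ (g t g⁻¹) (g F g⁻¹) = br Ψ t F` for closed `Ψ`, if `Ψ` does not distinguish `t F` and `F t`.
* `fnc_cj`: `FnR` for `(L, Fr)` implies `FnC` for `(cjL L s, cjF Fr s)`. `ff_cj`: the same for `FF`.
* `fnc_ff`: both from `FnR`.
-/

set_option autoImplicit false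
set_option linter.dupNamespace false

open scoped NumberField commutatorElement
open IsDedekindDomain
open scoped Classical

noncomputable section

namespace H77.S3

open H63.MA H38.BB H38.BG H57.PC H57.BRA H57.GP H77.WD Pool.Agent.H19.NF
  Pool.Agent.H19.AB Pool.Agent.H19.A2 H77.WE Pool.Agent.H19 H77.GL

/-- conjugation of a torus, on a group -/
theorem br_cj {G M : Type} [Group G] [CommRing M] {Ψ : G → G → M}
    (h : ∀ x y w, d2 Ψ x y w = 0) (g t F : G) (h2 : ∀ a, Ψ a (t * F) = Ψ a (F * t))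
    (h3 : ∀ a, Ψ (g * (t * F) * g⁻¹) a = Ψ (g * (F * t) * g⁻¹) a) :
    br Ψ (g * t * g⁻¹) (g * F * g⁻¹) = br Ψ t F := by
  have key : ∀ x y : G, Ψ (g * x * g⁻¹) (g * y * g⁻¹) =
      Ψ (g * y * g⁻¹) g - Ψ (g * (x * y) * g⁻¹) g + Ψ (g * x * g⁻¹) g + Ψ x y + Ψ g (x * y) -
        Ψ g x - Ψ g y := by
    intro x y
    have e1 := h (g * x * g⁻¹) (g * y * g⁻¹) g
    have e2 := h (g * x * g⁻¹) g y
    have e3 := h g x y
    unfold d2 at e1 e2 e3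
    have a1 : g * x * g⁻¹ * (g * y * g⁻¹) = g * (x * y) * g⁻¹ := by group
    have a2 : g * y * g⁻¹ * g = g * y := by group
    have a3 : g * x * g⁻¹ * g = g * x := by group
    rw [a1, a2] at e1
    rw [a3] at e2
    linear_combination -e3 - e1 + e2
  unfold br
  rw [key t F, key F t, h3, h2]
  ring

variable {K : Type} [Field K] [NumberField K] {Ω : Type} [Field Ω] [Algebra K Ω] [IsAlgClosure K Ω]
  {p : ℕ} {ζ : K}

omit [IsAlgClosure K Ω] in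
theorem tmk_cj {k : ℕ} {D : RD0 K p ζ} (L : LDs D Ω) (s : Pl K → Gal(Ω/K)) {R : Type} [Group R]
    {ρ : Gal(Ω/K) →* R} (h : Tmk k (cjL L s) ρ) : Tmk k L ρ := by
  intro v hv τ hτ
  have h1 := h v hv _ (cj_inr L s hv τ hτ)
  rw [map_mul, map_mul, map_inv, conj_pow] at h1
  have h2 : ρ τ ^ p ^ k = (ρ (s v))⁻¹ * (ρ (s v) * ρ τ ^ p ^ k * (ρ (s v))⁻¹) * ρ (s v) := by
    group
  rw [h2, h1]
  group

theorem fnc_cj (hp : p.Prime) (hζ : IsPrimitiveRoot ζ p) {k m j : ℕ} {z : K}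
    (hz : IsPrimitiveRoot z (p ^ (j + 1))) (hkj : k ≤ j + 1) [NeZero (p ^ m)] {D : RD0 K p ζ}
    {L : LDs D Ω} {Q : DP K Ω} {Fr : FR L}
    {I : ((Gal(Ω/K) → Gal(Ω/K) → Gal(Ω/K) → ZMod (p ^ m)) ×
      (Pl K → Gal(Ω/K) → Gal(Ω/K) → ZMod (p ^ m))) →+ AddCircle (1 : ℝ)}
    (hI : FnR p k m D L Q Fr I) (s : Pl K → Gal(Ω/K)) :
    FnC p k m D (cjL L s) Q (cjF Fr s) I := by
  intro Ψ η h1 h2 h3
  obtain ⟨R, i1, i2, ρ, ψ, ht, hρ, hl, hr, hΨ⟩ := h1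
  have htL := tmk_cj L s ht
  have h4 := hI Ψ η ⟨R, i1, i2, ρ, ψ, htL, hρ, hl, hr, hΨ⟩ h3
  have h5 : d2 Ψ = 0 := by
    funext σ τ υ
    exact h2 σ τ υ
  rw [h5] at h4
  rw [h4]
  congr 1
  unfold TS1
  refine finsum_congr fun v => ?_
  by_cases hv : v ∈ D.S0
  · rw [t_S0 L hv, t_S0 (cjL L s) hv]
    unfold br
    rw [hΨ, hΨ, hΨ, hΨ, map_one, hl, hr, hl, hr]
  · rw [cj_t L s hv]
    have h6 := frm hp hζ hz Fr hv ρ hρ fun τ hτ => by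
      obtain ⟨i, hi⟩ := pow_dvd_pow p hkj
      rw [hi, pow_mul, htL v hv τ hτ, one_pow]
    have h7 : ρ (L.t v * Fr.F v) = ρ (Fr.F v * L.t v) := by
      rw [map_mul, map_mul, h6]
    refine (br_cj h2 (s v) (L.t v) (Fr.F v) (fun a => ?_) fun a => ?_).symm
    · rw [hΨ, hΨ, h7]
    · rw [hΨ, hΨ, map_mul, map_mul, h7, ← map_mul, ← map_mul]

theorem ff_cj (hp : p.Prime) (hζ : IsPrimitiveRoot ζ p) {k m j : ℕ} {z : K}
    (hz : IsPrimitiveRoot z (p ^ (j + 1))) (hkj : k ≤ j + 1) [NeZero (p ^ m)] {D : RD0 K p ζ}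
    {L : LDs D Ω} {Q : DP K Ω} {Fr : FR L}
    {I : ((Gal(Ω/K) → Gal(Ω/K) → Gal(Ω/K) → ZMod (p ^ m)) ×
      (Pl K → Gal(Ω/K) → Gal(Ω/K) → ZMod (p ^ m))) →+ AddCircle (1 : ℝ)}
    (hF : FF p k m D L Q Fr I) (s : Pl K → Gal(Ω/K)) :
    FF p k m D (cjL L s) Q (cjF Fr s) I := by
  intro R _ _ e he ρ hexp hρ hiv h0
  refine hF R e he ρ hexp hρ (fun v hv => ?_) h0
  have h1 := hiv v hv
  rw [cj_t L s hv] at h1
  have h6 := frm hp hζ hz Fr hv ρ hρ fun τ _ => by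
    obtain ⟨i, hi⟩ := pow_dvd_pow p hkj
    rw [hi, pow_mul, hexp, one_pow]
  have h7 : ρ (Fr.F v * L.t v) = ρ (L.t v * Fr.F v) := by
    rw [map_mul, map_mul, h6]
  have h8 := br_cj (Ψ := fun σ τ => e (ρ σ) (ρ τ)) (M := ZMod p) (fun σ τ υ => by
    show e (ρ τ) (ρ υ) - e (ρ (σ * τ)) (ρ υ) + e (ρ σ) (ρ (τ * υ)) - e (ρ σ) (ρ τ) = 0
    have h9 := he.co (ρ σ) (ρ τ) (ρ υ)
    rw [map_mul, map_mul]
    linear_combination h9) (s v) (Fr.F v) (L.t v) (fun a => by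
      show e (ρ a) (ρ _) = e (ρ a) (ρ _)
      rw [h7]) fun a => by
      show e (ρ _) (ρ a) = e (ρ _) (ρ a)
      rw [map_mul, map_mul, h7, ← map_mul, ← map_mul]
  exact h8.symm.trans h1

/-- (N1) -/
theorem fnc_ff (hp : p.Prime) (hp2 : MOne p K) (hζ : IsPrimitiveRoot ζ p) {k m j : ℕ} {z : K}
    (hz : IsPrimitiveRoot z (p ^ (j + 1))) (hkj : k + 1 ≤ j + 1) (hk : 0 < k) (hm : 1 ≤ m)
    (hzn : H24.RK.Zn p (k + 1) K) [NeZero (p ^ m)] {D : RD0 K p ζ} {L : LDs D Ω} {Q : DP K Ω}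
    {Fr : FR L} {I : ((Gal(Ω/K) → Gal(Ω/K) → Gal(Ω/K) → ZMod (p ^ m)) ×
      (Pl K → Gal(Ω/K) → Gal(Ω/K) → ZMod (p ^ m))) →+ AddCircle (1 : ℝ)}
    (hI : FnR p k m D L Q Fr I) (s : Pl K → Gal(Ω/K)) :
    FnC p k m D (cjL L s) Q (cjF Fr s) I ∧ FF p k m D (cjL L s) Q (cjF Fr s) I :=
  ⟨fnc_cj hp hζ hz (by omega) hI s, ff_cj hp hζ hz (by omega)
    (H82.SF.ffR hk hm hp hp2 hζ hzn Q Fr hI) s⟩

end H77.S3
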